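import Pool.Agent.CYS.Defs

/-!
# [CYS-A] the isomorphism `(x, y) ↦ (u² x, u³ y)`

PROOF. `scE_some`: as `JD.omE_some` (JD/P1.lean): `CM27.trEq_some`, `VC63.vcFun_some`, `VC63.vX`, `VC63.vY`, `VC63.vc_nonsingular`. The other ones by cases `P = 0` / `P = (x, y)` with `scE_some`, `WeierstrassCurve.Affine.Point.some.injEq`
(compare `JD.omE_ptE`); `scE_two`, `scE_ker`: `u ≠ 0`. `scE_neg`: for `u = -1` the map is `P ↦ -P` (`WeierstrassCurve.Affine.Point.neg_some`, `negY x y = -y` for `ED d`); `scE_om`: for `u ^ 3 = 1` (`u ≠ 1`): `u ^ 2 + u + 1 = 0`, the map is `(x, y) ↦ (u² x, y)`, that is `omE` for `u ^ 2`.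
-/

set_option autoImplicit false

open NumberField IsDedekindDomain
open scoped Classical

namespace CYS

open JD (ED ptE Coc LocTriv phiE KerE omE)
open JT (TwoE)
open CUD (gal_comm alg_comm tau_comm am_ne am_o)

section
variable {K : Type} [Field K] {d d' d'' u w : K}

theorem scE_some (hu : u ≠ 0) (h : d * u ^ 6 = d') (x y : K) (hxy : (ED d).toAffine.Nonsingular x y) :
    ∃ h', scE hu h (.some x y hxy) = .some (u ^ 2 * x) (u ^ 3 * y) h' := by
  have e1 : (CM27.trEq (sc_smul hu h)).symm (.some x y hxy) =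
      .some x y (by rw [sc_smul hu h]; exact hxy) := by
    rw [AddEquiv.symm_apply_eq, CM27.trEq_some]
  have e2 : scE hu h (.some x y hxy) = VC63.vcFun (ED d') ⟨Units.mk0 u hu, 0, 0, 0⟩
      ((CM27.trEq (sc_smul hu h)).symm (.some x y hxy)) := rfl
  rw [e2, e1, VC63.vcFun_some]
  have eX : VC63.vX (⟨Units.mk0 u hu, 0, 0, 0⟩ : WeierstrassCurve.VariableChange K) x = u ^ 2 * x := by
    simp [VC63.vX]
  have eY : VC63.vY (⟨Units.mk0 u hu, 0, 0, 0⟩ : WeierstrassCurve.VariableChange K) x y = u ^ 3 * y := by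
    simp [VC63.vY]
  have hns : (ED d').toAffine.Nonsingular (u ^ 2 * x) (u ^ 3 * y) := by
    have h5 := (VC63.vc_nonsingular (ED d') ⟨Units.mk0 u hu, 0, 0, 0⟩ x y).1 (by rw [sc_smul hu h]; exact hxy)
    rw [eX, eY] at h5
    exact h5
  refine ⟨hns, ?_⟩
  rw [WeierstrassCurve.Affine.Point.some.injEq]
  exact ⟨eX, eY⟩

theorem a_zero (hu : u ≠ 0) (h : d * u ^ 6 = d') : scE hu h (WeierstrassCurve.Affine.Point.zero : (ED d).toAffine.Point) = 0 :=
  map_zero (scE hu h)

theorem scE_scE (hu : u ≠ 0) (h : d * u ^ 6 = d') (hw : w ≠ 0) (h' : d' * w ^ 6 = d'') (P : (ED d).toAffine.Point) :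
    scE hw h' (scE hu h P) = scE (u := w * u) (mul_ne_zero hw hu) (by rw [← h', ← h]; ring) P := by
  cases P with
  | zero =>
    rw [a_zero, a_zero, map_zero]
  | some x y hP =>
    obtain ⟨h1, e1⟩ := scE_some hu h x y hP
    obtain ⟨h2, e2⟩ := scE_some hw h' _ _ h1
    obtain ⟨h3, e3⟩ := scE_some (u := w * u) (d' := d'') (mul_ne_zero hw hu) (by rw [← h', ← h]; ring) x y hP
    rw [e1, e2, e3, WeierstrassCurve.Affine.Point.some.injEq]
    exact ⟨by ring, by ring⟩

theorem scE_congr (hu : u ≠ 0) (h : d * u ^ 6 = d') (hw : w ≠ 0) (h' : d * w ^ 6 = d') (huw : u = w) (P : (ED d).toAffine.Point) :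
    scE hu h P = scE hw h' P := by
  subst huw
  rfl

theorem scE_one (h : d * (1 : K) ^ 6 = d) (P : (ED d).toAffine.Point) : scE one_ne_zero h P = P := by
  cases P with
  | zero =>
    rw [a_zero]
    rfl
  | some x y hP =>
    obtain ⟨h1, e1⟩ := scE_some one_ne_zero h x y hP
    rw [e1, WeierstrassCurve.Affine.Point.some.injEq]
    exact ⟨by ring, by ring⟩

theorem scE_ptE {L : Type} [Field L] (f : K →+* L) {D D' z : L} (hu : u ≠ 0) (h : d * u ^ 6 = d') (hd : f d = D) (hd' : f d' = D')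
    (hz : z ≠ 0) (hfz : f u = z) (h' : D * z ^ 6 = D') (P : (ED d).toAffine.Point) :
    ptE f hd' (scE hu h P) = scE hz h' (ptE f hd P) := by
  cases P with
  | zero =>
    have h0 : (WeierstrassCurve.Affine.Point.zero : (ED d).toAffine.Point) = 0 := rfl
    rw [h0, JD.ptE_zero, map_zero, map_zero, JD.ptE_zero]
  | some x y hP =>
    obtain ⟨h1, e1⟩ := scE_some hu h x y hP
    rw [e1]
    simp only [ptE]
    obtain ⟨h2, e2⟩ := scE_some hz h' (f x) (f y) (by
      have h5 := (WeierstrassCurve.Affine.map_nonsingular (ED d).toAffine f.injective x y).2 hP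
      have h6 : ((ED d).toAffine.map f) = (ED D).toAffine := JD.p1_map f hd
      rwa [h6] at h5)
    rw [e2, WeierstrassCurve.Affine.Point.some.injEq, map_mul, map_mul, map_pow, map_pow, hfz]
    exact ⟨rfl, rfl⟩

theorem scE_two (hu : u ≠ 0) (h : d * u ^ 6 = d') (P : (ED d).toAffine.Point) : TwoE (scE hu h P) ↔ TwoE P := by
  cases P with
  | zero =>
    rw [a_zero]
    exact Iff.rfl
  | some x y hP =>
    obtain ⟨h1, e1⟩ := scE_some hu h x y hP
    rw [e1]
    change u ^ 3 * y = 0 ↔ y = 0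
    rw [mul_eq_zero]
    exact ⟨fun h2 => h2.resolve_left (pow_ne_zero _ hu), fun h2 => Or.inr h2⟩

theorem scE_ker (hu : u ≠ 0) (h : d * u ^ 6 = d') (P : (ED d).toAffine.Point) : KerE (scE hu h P) ↔ KerE P := by
  cases P with
  | zero =>
    rw [a_zero]
    exact Iff.rfl
  | some x y hP =>
    obtain ⟨h1, e1⟩ := scE_some hu h x y hP
    rw [e1]
    change u ^ 2 * x = 0 ↔ x = 0
    rw [mul_eq_zero]
    exact ⟨fun h2 => h2.resolve_left (pow_ne_zero _ hu), fun h2 => Or.inr h2⟩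

theorem scE_TE {l : ℕ} (hu : u ≠ 0) (h : d * u ^ 6 = d') (P : (ED d).toAffine.Point) : TE l (scE hu h P) ↔ TE l P := by
  unfold TE
  rw [scE_two, scE_ker]

/-- `u = -1` -/
theorem scE_neg (hu : u ≠ 0) (h : d * u ^ 6 = d) (h1 : u = -1) (P : (ED d).toAffine.Point) : scE hu h P = -P := by
  cases P with
  | zero =>
    rw [a_zero]
    rfl
  | some x y hP =>
    obtain ⟨h2, e1⟩ := scE_some hu h x y hP
    rw [e1, WeierstrassCurve.Affine.Point.neg_some, WeierstrassCurve.Affine.Point.some.injEq, h1]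
    refine ⟨by ring, ?_⟩
    simp only [WeierstrassCurve.Affine.negY, ED]
    ring

/-- `u ^ 3 = 1` -/
theorem scE_om (hu : u ≠ 0) (h : d * u ^ 6 = d) (h3 : u ^ 3 = 1) (ho : (u ^ 2) ^ 2 + u ^ 2 + 1 = 0) (P : (ED d).toAffine.Point) :
    scE hu h P = omE ho P := by
  cases P with
  | zero =>
    rw [a_zero]
    exact (map_zero (omE ho)).symm
  | some x y hP =>
    obtain ⟨h2, e1⟩ := scE_some hu h x y hP
    obtain ⟨h4, e2⟩ := JD.omE_some ho x y hP
    rw [e1, e2, WeierstrassCurve.Affine.Point.some.injEq]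
    exact ⟨rfl, by rw [h3, one_mul]⟩

end

end CYS
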