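import Pool.Agent.CYS.A
import Pool.Agent.JT.T1

/-!
# [CYS-B] orthogonality

PROOF. `zp_six`: `zᵢ ^ 6 = 1` (`m ∣ 6`). `orth`: let `S` be the sum, `i₀` with `z := z i₀ ≠ 1`. `scE z S = ∑ scE (z * zp z ψ) P` (`map_sum`, `scE_scE`) `= ∑ scE (zp z (ψ + Pi.single i₀ 1)) P = S` (`zp z (ψ + Pi.single i₀ 1) = z i₀ * zp z ψ`: only the factor `i₀` changes, `(a + 1).val ≡ a.val + 1 mod m` and `z ^ m = 1`;
`Fintype.sum_equiv (Equiv.addRight _)`). `l • S = 0` (`map_nsmul`). `l = 3`, `m = 2`: `z = -1`, `scE z S = -S` (`scE_neg`), so `2 • S = 0` and `3 • S = 0`, `S = 0`. `l = 2`, `m = 3`: `z ^ 3 = 1`, `z ≠ 1`, `(z ^ 2) ^ 2 + z ^ 2 + 1 = 0`; `S = (x, y)`: `scE z S = (z² x, y)` (`scE_some`), so `x = 0`; `2 • S = 0`: `TwoE S` (`JT.twoE_iff`, `CharZero`), `y = 0`; `JD.ED_equation`: `d = 0`, a contradiction.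
-/

set_option autoImplicit false

open NumberField IsDedekindDomain
open scoped Classical

namespace CYS

open JD (ED ptE Coc LocTriv phiE KerE omE)
open JT (TwoE)
open CUD (gal_comm alg_comm tau_comm am_ne am_o)

section
variable {K : Type} [Field K] {m b : ℕ}

theorem z_ne [NeZero m] {z : _root_.Fin b → K} (hz : ∀ i, z i ^ m = 1) (i : _root_.Fin b) : z i ≠ 0 := by
  intro h
  have h1 := hz i
  rw [h, zero_pow (NeZero.ne m)] at h1
  exact zero_ne_one h1

theorem zp_six {l : ℕ} (hm : l * m = 6) {z : _root_.Fin b → K} (hz : ∀ i, z i ^ m = 1) (ψ : _root_.Fin b → ZMod m) : zp z ψ ^ 6 = 1 := by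
  unfold zp
  rw [← Finset.prod_pow]
  refine Finset.prod_eq_one fun i _ => ?_
  rw [← pow_mul, mul_comm, pow_mul, ← hm, mul_comm l m, pow_mul, hz, one_pow, one_pow]

theorem b_pow [NeZero m] {z : K} (hz : z ^ m = 1) (a : ZMod m) : z ^ (a + 1).val = z * z ^ a.val := by
  rw [ZMod.val_add, ZMod.val_one_eq_one_mod, ← pow_eq_pow_mod _ hz, pow_add, ← pow_eq_pow_mod _ hz, pow_one, mul_comm]

theorem b_shift [NeZero m] {z : _root_.Fin b → K} (hz : ∀ i, z i ^ m = 1) (ψ : _root_.Fin b → ZMod m) (i₀ : _root_.Fin b) :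
    zp z (ψ + Pi.single i₀ 1) = z i₀ * zp z ψ := by
  unfold zp
  have h1 : ∀ i, z i ^ ((ψ + Pi.single i₀ 1 : _root_.Fin b → ZMod m) i).val = (if i = i₀ then z i₀ else 1) * z i ^ (ψ i).val := by
    intro i
    by_cases hi : i = i₀
    · subst hi
      rw [if_pos rfl, Pi.add_apply, Pi.single_eq_same, b_pow (hz i)]
    · rw [if_neg hi, Pi.add_apply, Pi.single_eq_of_ne hi, add_zero, one_mul]
  rw [Finset.prod_congr rfl fun i _ => h1 i, Finset.prod_mul_distrib, Finset.prod_ite_eq' Finset.univ i₀ fun _ => z i₀,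
    if_pos (Finset.mem_univ _)]

/-- the sum is invariant -/
theorem b_inv [NeZero m] {d : K} {l : ℕ} (hm : l * m = 6) {z : _root_.Fin b → K} (hz : ∀ i, z i ^ m = 1)
    (i₀ : _root_.Fin b) (P : (ED d).toAffine.Point) (h0 : d * z i₀ ^ 6 = d) :
    scE (z_ne hz i₀) h0 (∑ ψ : _root_.Fin b → ZMod m, scE (zp_ne (z_ne hz) ψ) (show d * zp z ψ ^ 6 = d by rw [zp_six hm hz, mul_one]) P) =
      ∑ ψ : _root_.Fin b → ZMod m, scE (zp_ne (z_ne hz) ψ) (show d * zp z ψ ^ 6 = d by rw [zp_six hm hz, mul_one]) P := by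
  rw [map_sum]
  refine Fintype.sum_equiv (Equiv.addRight (Pi.single i₀ (1 : ZMod m))) _ _ fun ψ => ?_
  rw [scE_scE]
  exact scE_congr _ _ _ _ (b_shift hz ψ i₀).symm P

/-- [CYS-B] -/
theorem orth [CharZero K] [NeZero m] {d : K} (hd : d ≠ 0) {l : ℕ} (hl : l = 2 ∨ l = 3) (hm : l * m = 6) {z : _root_.Fin b → K} (hz : ∀ i, z i ^ m = 1)
    (hz1 : ∃ i, z i ≠ 1) (P : (ED d).toAffine.Point) (hP : l • P = 0) :
    ∑ ψ : _root_.Fin b → ZMod m, scE (zp_ne (z_ne hz) ψ) (show d * zp z ψ ^ 6 = d by rw [zp_six hm hz, mul_one]) P = 0 := by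
  obtain ⟨i₀, hi₀⟩ := hz1
  have h06 : z i₀ ^ 6 = 1 := by
    rw [← hm, mul_comm, pow_mul, hz, one_pow]
  have h0 : d * z i₀ ^ 6 = d := by rw [h06, mul_one]
  have hinv := b_inv hm hz i₀ P h0
  have hl0 : l • (∑ ψ : _root_.Fin b → ZMod m, scE (zp_ne (z_ne hz) ψ) (show d * zp z ψ ^ 6 = d by rw [zp_six hm hz, mul_one]) P) = 0 := by
    rw [Finset.smul_sum]
    refine Finset.sum_eq_zero fun ψ _ => ?_
    rw [← map_nsmul, hP, map_zero]
  revert hinv hl0
  generalize (∑ ψ : _root_.Fin b → ZMod m, scE (zp_ne (z_ne hz) ψ) (show d * zp z ψ ^ 6 = d by rw [zp_six hm hz, mul_one]) P) = S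
  intro hinv hl0
  rcases hl with rfl | rfl
  · have hm3 : m = 3 := by omega
    have hz3 : z i₀ ^ 3 = 1 := by
      have := hz i₀
      rwa [hm3] at this
    cases S with
    | zero => rfl
    | some x y hxy =>
      exfalso
      obtain ⟨h', hs⟩ := scE_some (z_ne hz i₀) h0 x y hxy
      rw [hs] at hinv
      simp only [WeierstrassCurve.Affine.Point.some.injEq] at hinv
      have h1 := hinv.1
      have h2 : y = 0 := (JT.twoE_iff (WeierstrassCurve.Affine.Point.some x y hxy)).2 hl0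
      have h3 : x = 0 := by
        by_contra hx
        have h4 : (z i₀ ^ 2 - 1) * x = 0 := by linear_combination h1
        rcases mul_eq_zero.1 h4 with h5 | h5
        · apply hi₀
          have h6 : z i₀ ^ 2 = 1 := by linear_combination h5
          have h7 : z i₀ ^ 3 = z i₀ := by rw [pow_succ, h6, one_mul]
          rw [← h7, hz3]
        · exact hx h5
      have h8 := (JD.ED_equation d x y).1 hxy.1
      rw [h2, h3] at h8
      apply hd
      linear_combination -h8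
  · have hm2 : m = 2 := by omega
    have hz2 : z i₀ ^ 2 = 1 := by
      have := hz i₀
      rwa [hm2] at this
    have hneg : z i₀ = -1 := by
      have h1 : (z i₀ - 1) * (z i₀ + 1) = 0 := by linear_combination hz2
      rcases mul_eq_zero.1 h1 with h2 | h2
      · exact absurd (by linear_combination h2) hi₀
      · linear_combination h2
    rw [scE_neg _ h0 hneg] at hinv
    have h1 : S = (3 : ℕ) • S - (S + S) := by
      rw [succ_nsmul, two_nsmul]
      abel
    have h2 : S + S = 0 := by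
      nth_rewrite 1 [← hinv]
      exact neg_add_cancel S
    rw [h1, hl0, h2, sub_zero]

end

end CYS
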