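import Pool.Agent.CXS.Defs
import Pool.Agent.JT.T0

/-!
# [CYS] the curve `y² = x³ + d` over abelian extensions of degree prime to `l`: definitions

`l = 2` or `l = 3`, `l * m = 6`; `k` is a number field with a primitive cube root of unity `o`, `F / k` is abelian of exponent `m`:
`F = k(ε₁, …, ε_b)`, `εᵢ ^ m = eᵢ`. The curve `ED d` over `F` has the twists `ED (d * ∏ eᵢ ^ (l * ψᵢ))`, `ψ : Fin b → ZMod m`, over `k`.
-/

set_option autoImplicit false

open NumberField IsDedekindDomain
open scoped Classical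

namespace CYS

open JD (ED ptE Coc LocTriv phiE KerE omE)
open JT (TwoE)
open CUD (gal_comm alg_comm tau_comm am_ne am_o)

/-- the points of order `2` (`l = 2`), the kernel of `1 - ω` (`l = 3`) -/
def TE (l : ℕ) {K : Type} [Field K] {d : K} (P : (ED d).toAffine.Point) : Prop :=
  (l = 2 → TwoE P) ∧ (l = 3 → KerE P)

/-- every `TE`-valued cocycle which is locally trivial at all finite places is principal -/
def Sel (l : ℕ) (F L : Type) [Field F] [NumberField F] [Field L] [Algebra F L] (d : F) : Prop :=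
  ∀ c : (L ≃ₐ[F] L) → (ED (algebraMap F L d)).toAffine.Point, Coc F L d c → (∀ σ, TE l (c σ)) →
    (∀ v : HeightOneSpectrum (𝓞 F), LocTriv c (v.adicCompletion F) (AlgebraicClosure (v.adicCompletion F))) →
    ∃ T : (ED (algebraMap F L d)).toAffine.Point, TE l T ∧ ∀ σ, c σ = ptE (σ : L →+* L) (gal_comm σ d) T - T

section
variable {K : Type} [Field K] {d d' u : K}

theorem sc_smul (hu : u ≠ 0) (h : d * u ^ 6 = d') :
    (⟨Units.mk0 u hu, 0, 0, 0⟩ : WeierstrassCurve.VariableChange K) • ED d' = ED d := by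
  subst h
  ext
  · rw [WeierstrassCurve.variableChange_a₁]; simp [ED]
  · rw [WeierstrassCurve.variableChange_a₂]; simp [ED]
  · rw [WeierstrassCurve.variableChange_a₃]; simp [ED]
  · rw [WeierstrassCurve.variableChange_a₄]; simp [ED]
  · rw [WeierstrassCurve.variableChange_a₆]
    simp only [ED]
    rw [Units.val_inv_eq_inv_val, Units.val_mk0]
    field_simp
    ring

/-- the isomorphism `(x, y) ↦ (u² x, u³ y)` -/
noncomputable def scE (hu : u ≠ 0) (h : d * u ^ 6 = d') : (ED d).toAffine.Point ≃+ (ED d').toAffine.Point :=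
  (CM27.trEq (sc_smul hu h)).symm.trans (VC63.vcEquiv (ED d') ⟨Units.mk0 u hu, 0, 0, 0⟩)

end

section
variable {K : Type} [Field K] {m b : ℕ}

/-- `∏ zᵢ ^ ψᵢ` -/
def zp (z : _root_.Fin b → K) (ψ : _root_.Fin b → ZMod m) : K := ∏ i, z i ^ (ψ i).val

theorem zp_ne {z : _root_.Fin b → K} (hz : ∀ i, z i ≠ 0) (ψ : _root_.Fin b → ZMod m) : zp z ψ ≠ 0 :=
  Finset.prod_ne_zero_iff.2 fun i _ => pow_ne_zero _ (hz i)

end

end CYS
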