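import Pool.Agent.CYS.C1
import Pool.Agent.CYS.Defs
import Pool.Agent.CXS.S5
import Pool.Agent.CXS.S8

/-!
# [CYS-C3] a cocycle which becomes principal over an extension of degree prime to `l` is principal

PROOF. `G = M ≃ₐ[Kv] M`. For `τ ∈ G` there is `r τ : L ≃ₐ[k] L` with `ι' (r τ x) = τ (ι' x)` (`L / k` is normal, algebraically closed and algebraic; `CXS.S8_normal`, or `AlgHom.restrictNormal'`); it is unique since `ι'` is injective, so `r` is a homomorphism.
Let `f τ = ptE ι' (c' (r τ))`: `f (τ τ') = f τ + ptE τ (f τ')` (`JD.ptE_comp`, `JD.ptE_congr`, `JD.ptE_add`). `ρ τ = JD.ptHE τ` (`tau_comm`). `H` = the kernel of the homomorphism `G → (F ≃ₐ[k] F)`, `τ ↦ (r τ)` restricted to `F` (`AlgEquiv.restrictNormalHom F`): normal, the quotient embeds in `F ≃ₐ[k] F`, so it is finite and its order divides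
`Nat.card (F ≃ₐ[k] F) = finrank k F` (`IsGalois.card_aut_eq_finrank`, Lagrange: `Subgroup.index_ker`, `Subgroup.card_subgroup_dvd_card`; compare `CXS.D3_index` in CXS/D3.lean), so `l` is prime to it. For `τ ∈ H`: `r τ` fixes `F`, so `τ` fixes the image of `F` in `M`, by `hgen` `τ` fixes the image of `C`, so `τ` is (the restriction of scalars of) some `τ₁ : M ≃ₐ[C] M` and `hloc` gives
`f τ = ptE τ Q - Q`. `avg_cop` (C1) with `R' = 0` (`l • f τ = 0`). The result `Q` for `LocAt c' Kv M ι'`: if `ι' (σ x) = τ (ι' x)` for all `x` then `σ = r τ`.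
-/

set_option autoImplicit false

open NumberField IsDedekindDomain
open scoped Classical

namespace CYS

open JD (ED ptE Coc LocTriv phiE KerE omE)
open CXS (Ch tr res LocAt)
open CUD (gal_comm alg_comm tau_comm am_ne am_o)

/-- [CYS-C3] -/
theorem locAt_down {k F L Kv C M : Type} [Field k] [CharZero k] [Field F] [Field L] [Algebra k F] [Algebra F L] [Algebra k L] [IsScalarTower k F L]
    [IsAlgClosure F L] [FiniteDimensional k F] [IsGalois k F] [Field Kv] [Algebra k Kv] [Field C] [Algebra k C] [Algebra F C] [IsScalarTower k F C]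
    [Algebra Kv C] [IsScalarTower k Kv C] [Field M] [Algebra C M] [Algebra k M] [Algebra F M] [Algebra Kv M] [IsScalarTower k C M] [IsScalarTower F C M]
    [IsScalarTower Kv C M] [IsScalarTower k Kv M] [IsAlgClosure C M]
    (hgen : ∀ y : C, ∃ (n : ℕ) (a : _root_.Fin n → Kv) (x : _root_.Fin n → F), y = ∑ i, algebraMap Kv C (a i) * algebraMap F C (x i))
    {l : ℕ} (hcop : Nat.Coprime l (Module.finrank k F)) {d : k} {c' : (L ≃ₐ[k] L) → (ED (algebraMap k L d)).toAffine.Point}
    (hc' : Coc k L d c') (hl : ∀ σ, l • c' σ = 0) (ι' : L →ₐ[k] M) (hι : ∀ x : F, ι' (algebraMap F L x) = algebraMap F M x)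
    (hloc : LocAt c' C M ι') : LocAt c' Kv M ι' := by
  have hML : CharZero L := charZero_of_injective_algebraMap (algebraMap k L).injective
  have hMM : CharZero M := charZero_of_injective_algebraMap (algebraMap k M).injective
  have : Algebra.IsAlgebraic F L := IsAlgClosure.isAlgebraic
  have : Algebra.IsAlgebraic k L := Algebra.IsAlgebraic.trans k F L
  have : IsAlgClosed L := IsAlgClosure.isAlgClosed F
  have : IsAlgClosure k L := ⟨inferInstance, inferInstance⟩
  have hnorm : Normal k L := IsAlgClosure.normal k L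
  have hex : ∀ τ : M ≃ₐ[Kv] M, ∃ g : L ≃ₐ[k] L, ∀ x, ι' (g x) = τ (ι' x) := by
    intro τ
    let b : L →ₐ[k] M :=
      { toRingHom := (τ : M →+* M).comp (ι' : L →+* M)
        commutes' := fun x => by
          show τ (ι' (algebraMap k L x)) = _
          rw [ι'.commutes, IsScalarTower.algebraMap_apply k Kv M, τ.commutes] }
    exact CXS.S8_normal ι' b
  choose r hr using hex
  have hinj : ∀ σ σ' : L ≃ₐ[k] L, (∀ x, ι' (σ x) = ι' (σ' x)) → σ = σ' := by
    intro σ σ' h
    ext x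
    exact (ι' : L →+* M).injective (h x)
  let R : (M ≃ₐ[Kv] M) →* (L ≃ₐ[k] L) := MonoidHom.mk' r (fun τ τ' => by
    apply hinj
    intro x
    rw [AlgEquiv.mul_apply, hr, hr, hr, AlgEquiv.mul_apply])
  have hRr : ∀ τ, R τ = r τ := fun _ => rfl
  let Θ : (M ≃ₐ[Kv] M) →* (F ≃ₐ[k] F) := (AlgEquiv.restrictNormalHom F).comp R
  have hfin : Finite (F ≃ₐ[k] F) := inferInstance
  have hfinQ : Finite ((M ≃ₐ[Kv] M) ⧸ Θ.ker) :=
    Finite.of_injective _ (QuotientGroup.kerLift_injective Θ)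
  have hcard : Nat.card ((M ≃ₐ[Kv] M) ⧸ Θ.ker) ∣ Module.finrank k F := by
    have h1 : Nat.card ((M ≃ₐ[Kv] M) ⧸ Θ.ker) = Nat.card Θ.range := Subgroup.index_ker Θ
    rw [h1, ← IsGalois.card_aut_eq_finrank]
    exact Subgroup.card_subgroup_dvd_card _
  have hcop' : Nat.Coprime l (Nat.card ((M ≃ₐ[Kv] M) ⧸ Θ.ker)) := Nat.Coprime.coprime_dvd_right hcard hcop
  let ρ : (M ≃ₐ[Kv] M) → (ED (algebraMap k M d)).toAffine.Point →+ (ED (algebraMap k M d)).toAffine.Point :=
    fun τ => JD.ptHE (τ : M →+* M) (tau_comm k Kv M τ d)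
  have hρ : ∀ τ P, ρ τ P = ptE (τ : M →+* M) (tau_comm k Kv M τ d) P := fun _ _ => rfl
  let f : (M ≃ₐ[Kv] M) → (ED (algebraMap k M d)).toAffine.Point := fun τ => ptE (ι' : L →+* M) (alg_comm ι' d) (c' (r τ))
  have hf : ∀ τ τ', f (τ * τ') = f τ + ρ τ (f τ') := by
    intro τ τ'
    show ptE (ι' : L →+* M) (alg_comm ι' d) (c' (r (τ * τ'))) = ptE (ι' : L →+* M) (alg_comm ι' d) (c' (r τ)) +
      ptE (τ : M →+* M) (tau_comm k Kv M τ d) (ptE (ι' : L →+* M) (alg_comm ι' d) (c' (r τ')))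
    have h1 : r (τ * τ') = r τ * r τ' := map_mul R τ τ'
    rw [h1, hc'.crossed, JD.ptE_add, JD.ptE_comp, JD.ptE_comp]
    congr 1
    refine JD.ptE_congr ?_ _ _ _
    ext x
    exact hr τ x
  obtain ⟨Q, hQ⟩ := hloc
  obtain ⟨Q', hQ'⟩ := avg_cop ρ (fun σ τ P => by
    rw [hρ, hρ, hρ, JD.ptE_comp]
    exact JD.ptE_congr rfl _ _ _) f hf Θ.ker Q (fun τ hτ => by
      have hτF : ∀ x : F, τ (algebraMap F M x) = algebraMap F M x := by
        intro x
        have h1 : AlgEquiv.restrictNormalHom F (r τ) = 1 := hτ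
        have h2 : r τ (algebraMap F L x) = algebraMap F L x := by
          have h3 := AlgEquiv.restrictNormal_commutes (r τ) F x
          have h4 : (r τ).restrictNormal F = 1 := h1
          rw [h4] at h3
          exact h3.symm
        rw [← hι, ← hr, h2]
      have hτC : ∀ y : C, τ (algebraMap C M y) = algebraMap C M y := by
        intro y
        obtain ⟨n, a, x, rfl⟩ := hgen y
        rw [map_sum, map_sum]
        refine Finset.sum_congr rfl fun i _ => ?_
        rw [map_mul, map_mul, ← IsScalarTower.algebraMap_apply Kv C M, ← IsScalarTower.algebraMap_apply F C M, τ.commutes, hτF]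
      let τ₁ : M ≃ₐ[C] M := AlgEquiv.ofRingEquiv (f := (τ : M ≃+* M)) hτC
      have h5 := hQ τ₁ (r τ) (fun x => hr τ x)
      show ptE (ι' : L →+* M) (alg_comm ι' d) (c' (r τ)) = _
      rw [h5]
      congr 1) hcop' 0 (fun τ => by
      show l • ptE (ι' : L →+* M) (alg_comm ι' d) (c' (r τ)) = _
      rw [← JD.ptE_nsmul, hl, JD.ptE_zero, map_zero, sub_zero])
  refine ⟨Q', fun τ σ hσ => ?_⟩
  have h6 : σ = r τ := hinj _ _ fun x => by rw [hσ, hr]
  rw [h6]
  exact hQ' τ

end CYS
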