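import Pool.Agent.CXS.S8

/-!
# [CYS-C4] local triviality for one embedding implies local triviality for all embeddings

PROOF. `CXS.locTriv_of_locAt` (CXS/S8.lean) with `KK` replaced by `k`, `v.adicCompletion KK` by `Kv`, `C = Kv`, `φ = id`: the proof becomes shorter (`F : M ≃ₐ[Kv] AlgebraicClosure Kv` is `IsAlgClosure.equiv Kv M _`).
-/

set_option autoImplicit false

open NumberField IsDedekindDomain
open scoped Classical

namespace CYS

open JD (ED ptE Coc LocTriv)
open CXS (LocAt)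
open CUD (gal_comm alg_comm tau_comm am_ne am_o)

/-- [CYS-C4] -/
theorem locTriv_gen {k L : Type} [Field k] [CharZero k] [Field L] [Algebra k L] [IsAlgClosure k L] {d : k} {c : (L ≃ₐ[k] L) → (ED (algebraMap k L d)).toAffine.Point}
    (hc : Coc k L d c) (Kv M : Type) [Field Kv] [Algebra k Kv] [Field M] [Algebra Kv M] [Algebra k M] [IsScalarTower k Kv M] [IsAlgClosure Kv M]
    {ι : L →ₐ[k] M} (hloc : LocAt c Kv M ι) : LocTriv c Kv (AlgebraicClosure Kv) := by
  have hnorm : Normal k L := IsAlgClosure.normal k L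
  let F : M ≃ₐ[Kv] AlgebraicClosure Kv := IsAlgClosure.equiv Kv M (AlgebraicClosure Kv)
  have hFK : ∀ x : k, F (algebraMap k M x) = algebraMap k (AlgebraicClosure Kv) x := by
    intro x
    rw [IsScalarTower.algebraMap_apply k Kv M, F.commutes,
      ← IsScalarTower.algebraMap_apply k Kv (AlgebraicClosure Kv)]
  intro ι₁
  let b : L →ₐ[k] AlgebraicClosure Kv :=
    { toRingHom := (F : M →+* AlgebraicClosure Kv).comp (ι : L →+* M)
      commutes' := fun x => by
        show F (ι (algebraMap k L x)) = _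
        rw [ι.commutes, hFK] }
  obtain ⟨g, hg⟩ := CXS.S8_normal b ι₁
  have hg' : ∀ x, F (ι (g x)) = ι₁ x := hg
  obtain ⟨Q, hQ⟩ := hloc
  have hFd : (F : M →+* AlgebraicClosure Kv) (algebraMap k M d) =
      algebraMap k (AlgebraicClosure Kv) d := hFK d
  refine ⟨ptE (F : M →+* AlgebraicClosure Kv) hFd
    (Q + ptE (ι : L →+* M) (alg_comm ι d) (c g)), fun τ₁ σ hσ => ?_⟩
  let τ : M ≃ₐ[Kv] M := (F.trans τ₁).trans F.symm
  have hτ : ∀ y, F (τ y) = τ₁ (F y) := fun y => F.apply_symm_apply _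
  obtain ⟨σ', hσ'⟩ : ∃ σ' : L ≃ₐ[k] L, g * σ = σ' * g := ⟨g * σ * g⁻¹, by group⟩
  have hσ'' : ∀ x, σ' (g x) = g (σ x) := fun x => by
    have := congrArg (fun h : L ≃ₐ[k] L => h x) hσ'
    exact this.symm
  have hcond : ∀ x, ι (σ' x) = τ (ι x) := by
    intro x
    obtain ⟨y, rfl⟩ := g.surjective x
    apply F.injective
    rw [hσ'', hg', hσ, hτ, hg']
  have key := hQ τ σ' hcond
  have h1 := hc.crossed g σ
  have h2 := hc.crossed σ' g
  rw [← hσ', h1] at h2
  have h3 : ptE (g : L →+* L) (gal_comm g d) (c σ) =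
      c σ' + ptE (σ' : L →+* L) (gal_comm σ' d) (c g) - c g := by
    rw [← h2]
    abel
  have e1 : ptE (ι₁ : L →+* AlgebraicClosure Kv) (alg_comm ι₁ d) (c σ) =
      ptE (F : M →+* AlgebraicClosure Kv) hFd
        (ptE (ι : L →+* M) (alg_comm ι d) (ptE (g : L →+* L) (gal_comm g d) (c σ))) := by
    rw [JD.ptE_comp, JD.ptE_comp]
    refine JD.ptE_congr ?_ _ _ _
    ext x
    exact (hg' x).symm
  have e2 : ptE (ι : L →+* M) (alg_comm ι d) (ptE (σ' : L →+* L) (gal_comm σ' d) (c g)) =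
      ptE (τ : M →+* M) (tau_comm k Kv M τ d) (ptE (ι : L →+* M) (alg_comm ι d) (c g)) := by
    rw [JD.ptE_comp, JD.ptE_comp]
    refine JD.ptE_congr ?_ _ _ _
    ext x
    exact hcond x
  have e3 : ∀ P : (ED (algebraMap k M d)).toAffine.Point,
      ptE (F : M →+* AlgebraicClosure Kv) hFd
        (ptE (τ : M →+* M) (tau_comm k Kv M τ d) P) =
      ptE (τ₁ : AlgebraicClosure Kv →+* AlgebraicClosure Kv)
        (tau_comm k Kv (AlgebraicClosure Kv) τ₁ d)
        (ptE (F : M →+* AlgebraicClosure Kv) hFd P) := by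
    intro P
    rw [JD.ptE_comp, JD.ptE_comp]
    refine JD.ptE_congr ?_ _ _ _
    ext x
    exact hτ x
  rw [e1, h3, JD.ptE_sub, JD.ptE_add, e2, key, ← e3, ← JD.ptE_sub]
  congr 1
  rw [JD.ptE_add]
  abel

end CYS
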