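import Pool.Agent.CYS.C2
import Pool.Agent.CYS.C3
import Pool.Agent.CYS.C4

/-!
# [CYS-C] the cocycle over `k` is locally trivial

PROOF. `exists_over v` (C2): `w`, `φ`. `Kv = v.adicCompletion k`, `C = w.adicCompletion F`, `M = AlgebraicClosure C`; the algebra structures as in the proof of `CXS.locC_of` (CXS/S6.lean), and `Algebra Kv C := φ.toAlgebra`, `Algebra Kv M := ((algebraMap C M).comp φ).toAlgebra`; the scalar towers by `IsScalarTower.of_algebraMap_eq`.
`ι : L →ₐ[F] M` (`IsAlgClosed.lift`), `ι' = ι.restrictScalars k`. `hloc w ι`, `CXS.locAt_res` (S5) give `LocAt c' C M ι'`; `locAt_down` (C3) gives `LocAt c' Kv M ι'`. `M` is an algebraic closure of `Kv`: `C` is algebraic over `Kv` (every element is a sum of products `φ (a) x`, `x ∈ F` algebraic over `k`, so over `Kv`: `IsAlgebraic.sum`, `.mul`, or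
`isIntegral` versions), `Algebra.IsAlgebraic.trans`. `locTriv_gen` (C4).
-/

set_option autoImplicit false

open NumberField IsDedekindDomain
open scoped Classical

namespace CYS

open JD (ED ptE Coc LocTriv phiE KerE omE)
open CXS (Ch tr res LocAt)
open CUD (gal_comm alg_comm tau_comm am_ne am_o)

/-- a field generated by algebraic elements is algebraic -/
theorem c_alg {k F Kv C : Type} [Field k] [Field F] [Algebra k F] [Algebra.IsAlgebraic k F] [Field Kv] [Algebra k Kv] [Field C] [Algebra k C] [Algebra F C]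
    [IsScalarTower k F C] [Algebra Kv C] [IsScalarTower k Kv C]
    (hgen : ∀ y : C, ∃ (n : ℕ) (a : _root_.Fin n → Kv) (x : _root_.Fin n → F), y = ∑ i, algebraMap Kv C (a i) * algebraMap F C (x i)) :
    Algebra.IsAlgebraic Kv C := by
  refine ⟨fun y => ?_⟩
  obtain ⟨n, a, x, rfl⟩ := hgen y
  refine IsIntegral.isAlgebraic (IsIntegral.sum _ fun i _ => IsIntegral.mul isIntegral_algebraMap ?_)
  have h1 : IsIntegral k (x i) := (Algebra.IsAlgebraic.isAlgebraic (R := k) (x i)).isIntegral
  have h2 : IsIntegral k (algebraMap F C (x i)) := h1.algebraMap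
  exact h2.tower_top

theorem c_clo {k F Kv C M : Type} [Field k] [Field F] [Algebra k F] [Algebra.IsAlgebraic k F] [Field Kv] [Algebra k Kv] [Field C] [Algebra k C] [Algebra F C]
    [IsScalarTower k F C] [Algebra Kv C] [IsScalarTower k Kv C] [Field M] [Algebra C M] [Algebra Kv M] [IsScalarTower Kv C M] [IsAlgClosure C M]
    (hgen : ∀ y : C, ∃ (n : ℕ) (a : _root_.Fin n → Kv) (x : _root_.Fin n → F), y = ∑ i, algebraMap Kv C (a i) * algebraMap F C (x i)) :
    IsAlgClosure Kv M := by
  have h1 := c_alg (k := k) (F := F) hgen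
  have h2 : Algebra.IsAlgebraic C M := IsAlgClosure.isAlgebraic
  exact ⟨IsAlgClosure.isAlgClosed C, Algebra.IsAlgebraic.trans Kv C M⟩

/-- the statement for abstract fields -/
theorem c_main {k F L Kv C M : Type} [Field k] [CharZero k] [Field F] [CharZero F] [Field L] [Algebra k F] [Algebra F L] [Algebra k L] [IsScalarTower k F L]
    [IsAlgClosure F L] [FiniteDimensional k F] [IsGalois k F] [Field Kv] [Algebra k Kv] [Field C] [Algebra k C] [Algebra F C] [IsScalarTower k F C]
    [Algebra Kv C] [IsScalarTower k Kv C] [Field M] [Algebra C M] [Algebra k M] [Algebra F M] [Algebra Kv M] [IsScalarTower k C M] [IsScalarTower F C M]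
    [IsScalarTower Kv C M] [IsScalarTower k Kv M] [IsScalarTower k F M] [IsAlgClosure C M]
    (hgen : ∀ y : C, ∃ (n : ℕ) (a : _root_.Fin n → Kv) (x : _root_.Fin n → F), y = ∑ i, algebraMap Kv C (a i) * algebraMap F C (x i))
    {l : ℕ} (hcop : Nat.Coprime l (Module.finrank k F)) {d : k} {c : Ch k F L d} {c' : (L ≃ₐ[k] L) → (ED (algebraMap k L d)).toAffine.Point}
    (hloc : LocTriv c C M) (hc' : Coc k L d c') (hl : ∀ σ, l • c' σ = 0) (h : ∀ σ : L ≃ₐ[F] L, tr k F (c' (res σ)) = c σ) :
    LocTriv c' Kv (AlgebraicClosure Kv) := by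
  have : Algebra.IsAlgebraic F L := IsAlgClosure.isAlgebraic
  have : IsAlgClosed M := IsAlgClosure.isAlgClosed C
  have : Algebra.IsAlgebraic k F := Algebra.IsAlgebraic.of_finite k F
  have hkL : IsAlgClosure k L := IsAlgClosure.ofAlgebraic k F L
  let ι : L →ₐ[F] M := IsAlgClosed.lift
  let ι' : L →ₐ[k] M := ι.restrictScalars k
  obtain ⟨Q, hQ⟩ := hloc ι
  have hC : LocAt c' C M ι' := CXS.locAt_res h C M ι ι' (fun _ => rfl) Q hQ
  have hK : LocAt c' Kv M ι' := locAt_down hgen hcop hc' hl ι' (fun x => ι.commutes x) hC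
  have hM : IsAlgClosure Kv M := c_clo (k := k) (F := F) hgen
  exact locTriv_gen hc' Kv M hK

/-- [CYS-C] -/
theorem loc_down {k F L : Type} [Field k] [NumberField k] [Field F] [NumberField F] [Field L] [Algebra k F] [Algebra F L] [Algebra k L] [IsScalarTower k F L]
    [IsAlgClosure F L] [IsGalois k F] {l : ℕ} (hcop : Nat.Coprime l (Module.finrank k F)) {d : k} {c : Ch k F L d}
    (hloc : ∀ w : HeightOneSpectrum (𝓞 F), LocTriv c (w.adicCompletion F) (AlgebraicClosure (w.adicCompletion F)))
    {c' : (L ≃ₐ[k] L) → (ED (algebraMap k L d)).toAffine.Point} (hc' : Coc k L d c') (hl : ∀ σ, l • c' σ = 0)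
    (h : ∀ σ : L ≃ₐ[F] L, tr k F (c' (res σ)) = c σ) (v : HeightOneSpectrum (𝓞 k)) :
    LocTriv c' (v.adicCompletion k) (AlgebraicClosure (v.adicCompletion k)) := by
  obtain ⟨w, φ, hφ, hgen⟩ := exists_over (F := F) v
  let a1 : Algebra k (w.adicCompletion F) := ((algebraMap F (w.adicCompletion F)).comp (algebraMap k F)).toAlgebra
  have t1 : IsScalarTower k F (w.adicCompletion F) := IsScalarTower.of_algebraMap_eq (fun _ => rfl)
  let a2 : Algebra (v.adicCompletion k) (w.adicCompletion F) := φ.toAlgebra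
  have t2 : IsScalarTower k (v.adicCompletion k) (w.adicCompletion F) := IsScalarTower.of_algebraMap_eq (fun x => (hφ x).symm)
  exact c_main (C := w.adicCompletion F) (M := AlgebraicClosure (w.adicCompletion F)) hgen hcop (hloc w) hc' hl h

end CYS
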