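import Mathlib

/-!
# [CYS-C1] averaging

PROOF. `avg`: as the beginning of the proof of `CXS.avg` (CXS/D2.lean): `c₁ σ = c σ - (ρ σ R - R)` vanishes on `H`, it is a function on `G ⧸ H`, `S = ∑ c₁ q`, `S = card • c₁ σ + ρ σ S`; so `card • c₁ σ = ρ σ (-S) - (-S)` and `card • c σ = ρ σ Q - Q` with `Q = card • R - S`.
`avg_cop`: with `a * card + b * l = 1` (Bézout in `ℤ`) `c σ = a • (card • c σ) + b • (l • c σ)`.
-/

set_option autoImplicit false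

namespace CYS

/-- [CYS-C1a] -/
theorem avg {G A : Type} [Group G] [AddCommGroup A] (ρ : G → A →+ A) (hρ : ∀ σ τ a, ρ (σ * τ) a = ρ σ (ρ τ a)) (c : G → A)
    (hc : ∀ σ τ, c (σ * τ) = c σ + ρ σ (c τ)) (H : Subgroup G) [H.Normal] [Finite (G ⧸ H)] (R : A) (hR : ∀ σ ∈ H, c σ = ρ σ R - R) :
    ∃ Q : A, ∀ σ, Nat.card (G ⧸ H) • c σ = ρ σ Q - Q := by
  classical
  have : Fintype (G ⧸ H) := Fintype.ofFinite _
  obtain ⟨d, hd⟩ : ∃ d : G → A, ∀ σ, d σ = c σ - (ρ σ R - R) := ⟨_, fun _ => rfl⟩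
  have hd1 : ∀ σ τ, d (σ * τ) = d σ + ρ σ (d τ) := by
    intro σ τ
    rw [hd, hd, hd, hc, hρ, map_sub, map_sub]
    abel
  have hd2 : ∀ σ, ∀ h ∈ H, d (σ * h) = d σ := by
    intro σ h hh
    have h0 : d h = 0 := by rw [hd, hR h hh, sub_self]
    rw [hd1, h0, map_zero, add_zero]
  obtain ⟨f, hf⟩ : ∃ f : G ⧸ H → A, ∀ g : G, f (QuotientGroup.mk g) = d g := by
    refine ⟨fun q => d q.out, fun g => ?_⟩
    obtain ⟨h, hh⟩ := QuotientGroup.mk_out_eq_mul H g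
    simp only
    rw [hh]
    exact hd2 g h h.2
  have hsum : ∀ σ : G, (∑ q : G ⧸ H, f q) =
      Nat.card (G ⧸ H) • d σ + ρ σ (∑ q : G ⧸ H, f q) := by
    intro σ
    have h1 : (∑ q : G ⧸ H, f q) = ∑ q : G ⧸ H, f ((QuotientGroup.mk σ : G ⧸ H) * q) :=
      (Fintype.sum_equiv (Equiv.mulLeft (QuotientGroup.mk σ : G ⧸ H)) _ _ (fun q => rfl)).symm
    have h2 : ∀ q : G ⧸ H, f ((QuotientGroup.mk σ : G ⧸ H) * q) = d σ + ρ σ (f q) := by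
      intro q
      obtain ⟨g, rfl⟩ := QuotientGroup.mk_surjective q
      rw [← QuotientGroup.mk_mul, hf, hf, hd1]
    have h3 : (∑ q : G ⧸ H, f ((QuotientGroup.mk σ : G ⧸ H) * q)) =
        ∑ q : G ⧸ H, (d σ + ρ σ (f q)) := Finset.sum_congr rfl (fun q _ => h2 q)
    have h4 : (∑ q : G ⧸ H, (d σ + ρ σ (f q))) =
        Nat.card (G ⧸ H) • d σ + ρ σ (∑ q : G ⧸ H, f q) := by
      rw [Finset.sum_add_distrib, Finset.sum_const, Finset.card_univ, Nat.card_eq_fintype_card,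
        map_sum]
    exact h1.trans (h3.trans h4)
  refine ⟨Nat.card (G ⧸ H) • R - ∑ q : G ⧸ H, f q, fun σ => ?_⟩
  have h1 := hsum σ
  have h2 : Nat.card (G ⧸ H) • d σ = (∑ q : G ⧸ H, f q) - ρ σ (∑ q : G ⧸ H, f q) :=
    eq_sub_of_add_eq h1.symm
  have h3 : c σ = d σ + (ρ σ R - R) := by rw [hd]; abel
  rw [h3, smul_add, h2, smul_sub, map_sub, map_nsmul]
  abel

/-- [CYS-C1b] -/
theorem avg_cop {G A : Type} [Group G] [AddCommGroup A] (ρ : G → A →+ A) (hρ : ∀ σ τ a, ρ (σ * τ) a = ρ σ (ρ τ a)) (c : G → A)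
    (hc : ∀ σ τ, c (σ * τ) = c σ + ρ σ (c τ)) (H : Subgroup G) [H.Normal] [Finite (G ⧸ H)] (R : A) (hR : ∀ σ ∈ H, c σ = ρ σ R - R)
    {l : ℕ} (hl : Nat.Coprime l (Nat.card (G ⧸ H))) (R' : A) (hR' : ∀ σ, l • c σ = ρ σ R' - R') :
    ∃ Q : A, ∀ σ, c σ = ρ σ Q - Q := by
  obtain ⟨Q, hQ⟩ := avg ρ hρ c hc H R hR
  obtain ⟨m, hm⟩ : ∃ m : ℕ, Nat.card (G ⧸ H) = m := ⟨_, rfl⟩
  rw [hm] at hl hQ
  have hb : (1 : ℤ) = l * l.gcdA m + m * l.gcdB m := by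
    have := Nat.gcd_eq_gcd_ab l m
    rw [hl.gcd_eq_one] at this
    exact_mod_cast this
  refine ⟨l.gcdA m • R' + l.gcdB m • Q, fun σ => ?_⟩
  have h1 : c σ = (1 : ℤ) • c σ := (one_smul ℤ _).symm
  have h2 : ((l : ℤ) * l.gcdA m) • c σ = l.gcdA m • (ρ σ R' - R') := by
    rw [mul_comm, mul_smul, natCast_zsmul, hR']
  have h3 : ((m : ℤ) * l.gcdB m) • c σ = l.gcdB m • (ρ σ Q - Q) := by
    rw [mul_comm, mul_smul, natCast_zsmul, hQ]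
  rw [h1, hb, add_smul, h2, h3, map_add, map_zsmul, map_zsmul, smul_sub, smul_sub]
  abel

end CYS
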