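import Pool.Agent.CYS.Defs
import Pool.Agent.CXS.S6

/-!
# [CYS-C2] the places of `F` above a place of `k`

PROOF. `w` over `v`: `CXS.s6_prime` (CXS/S6.lean) with `KK` replaced by `k` (`Nonempty (v.asIdeal.primesOver (𝓞 F))`). `φ` continuous with the compatibility: `CXS.s6_map` with `k` instead of `KK`. Then: put `Algebra (v.adicCompletion k) (w.adicCompletion F) := φ.toAlgebra`; `ContinuousSMul` (`φ` is continuous, multiplication is continuous),
`IsScalarTower k (v.adicCompletion k) (w.adicCompletion F)` (compatibility). The last property is in the proof of the instance `Module.Finite Kv Lw` in `Mathlib/NumberTheory/NumberField/Completion/FinitePlace.lean` (end of the file): the map `Φ : Kv ⊗[K] L →ₗ[Kv] Lw` is surjective (its range is a finite dimensional, so closed, subspace, and it is dense);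
an element of `Kv ⊗[K] L` is a sum of pure tensors (`TensorProduct.induction_on`, or `TensorProduct.exists_finset`, or `Submodule.span` form), so `y = ∑ φ (a i) * x i`.
-/

set_option autoImplicit false

open NumberField IsDedekindDomain
open scoped Classical

namespace CYS

theorem c2_prime {k F : Type} [Field k] [NumberField k] [Field F] [NumberField F] [Algebra k F] (v : HeightOneSpectrum (𝓞 k)) :
    ∃ w : HeightOneSpectrum (𝓞 F), w.asIdeal.LiesOver v.asIdeal := by
  have h0 : Nonempty (v.asIdeal.primesOver (𝓞 F)) := inferInstance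
  obtain ⟨⟨P, hP1, hP2⟩⟩ := h0
  have h1 : P ≠ ⊥ := by
    intro h
    apply v.ne_bot
    have h2 : v.asIdeal = P.under (𝓞 k) := hP2.over
    rw [h2, h]
    exact Ideal.under_bot _ _
  exact ⟨⟨P, hP1, h1⟩, hP2⟩

theorem c2_map {k F : Type} [Field k] [NumberField k] [Field F] [NumberField F] [Algebra k F] (v : HeightOneSpectrum (𝓞 k))
    (w : HeightOneSpectrum (𝓞 F)) (hvw : w.asIdeal.LiesOver v.asIdeal) :
    ∃ φ : v.adicCompletion k →+* w.adicCompletion F, Continuous φ ∧
        ∀ x : k, φ (algebraMap k (v.adicCompletion k) x) =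
          algebraMap F (w.adicCompletion F) (algebraMap k F x) := by
  have huc := HeightOneSpectrum.uniformContinuous_algebraMap_liesOver (A := 𝓞 k) (K := k)
    (B := 𝓞 F) F v w
  let ψ : (v.valuation k).Completion →+* (w.valuation F).Completion :=
    UniformSpace.Completion.mapRingHom
      (algebraMap (WithVal (v.valuation k)) (WithVal (w.valuation F))) huc.continuous
  have hψ : Continuous ψ := UniformSpace.Completion.continuous_map
  refine ⟨((HeightOneSpectrum.adicCompletion.equiv F w).symm.toRingHom.comp ψ).comp
    (HeightOneSpectrum.adicCompletion.equiv k v).toRingHom, ?_, fun x => ?_⟩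
  · exact ((HeightOneSpectrum.adicCompletion.continuous_ofCompletion F w).comp hψ).comp
      (HeightOneSpectrum.adicCompletion.continuous_toCompletion k v)
  · apply HeightOneSpectrum.adicCompletion.ext
    have h1 := UniformSpace.Completion.mapRingHom_coe (f := algebraMap (WithVal (v.valuation k))
      (WithVal (w.valuation F))) huc.continuous (WithVal.toVal (v.valuation k) x)
    exact h1

open scoped TensorProduct Valued in
theorem c2_gen {k F : Type} [Field k] [NumberField k] [Field F] [NumberField F] [Algebra k F] (v : HeightOneSpectrum (𝓞 k))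
    (w : HeightOneSpectrum (𝓞 F)) [Algebra (v.adicCompletion k) (w.adicCompletion F)]
    [ContinuousSMul (v.adicCompletion k) (w.adicCompletion F)]
    [IsScalarTower k (v.adicCompletion k) (w.adicCompletion F)] (y : w.adicCompletion F) :
    ∃ (n : ℕ) (a : _root_.Fin n → v.adicCompletion k) (x : _root_.Fin n → F),
        y = ∑ i, algebraMap (v.adicCompletion k) (w.adicCompletion F) (a i) * algebraMap F (w.adicCompletion F) (x i) := by
  let Φ : (v.adicCompletion k) ⊗[k] F →ₗ[v.adicCompletion k] (w.adicCompletion F) :=
    (Algebra.TensorProduct.lift (Algebra.algHom (v.adicCompletion k) (v.adicCompletion k) (w.adicCompletion F))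
    (Algebra.algHom k F (w.adicCompletion F)) (fun _ _ ↦ mul_comm ..)).toLinearMap
  have h_dense : DenseRange Φ := by
    apply (w.denseRange_algebraMap F).mono
    rintro _ ⟨l, rfl⟩
    exact ⟨1 ⊗ₜ l, by simp [Φ, Algebra.algHom]⟩
  have hs : Set.range Φ = Set.univ := by
    rw [← Φ.coe_range, ← Φ.range.closed_of_finiteDimensional.closure_eq]
    exact h_dense.closure_range
  obtain ⟨t, ht⟩ : ∃ t, Φ t = y := by
    have : y ∈ Set.range Φ := by rw [hs]; exact Set.mem_univ _
    exact this
  rw [← ht]
  clear ht
  induction t using TensorProduct.induction_on with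
  | zero => exact ⟨0, Fin.elim0, Fin.elim0, by rw [map_zero, Fin.sum_univ_zero]⟩
  | tmul a x => exact ⟨1, fun _ => a, fun _ => x, by simp [Φ, Algebra.algHom]⟩
  | add s t hs ht =>
    obtain ⟨n, a, x, h1⟩ := hs
    obtain ⟨n', a', x', h2⟩ := ht
    refine ⟨n + n', Fin.append a a', Fin.append x x', ?_⟩
    rw [map_add, h1, h2, Fin.sum_univ_add]
    simp only [Fin.append_left, Fin.append_right]

/-- [CYS-C2] -/
theorem exists_over {k F : Type} [Field k] [NumberField k] [Field F] [NumberField F] [Algebra k F] (v : HeightOneSpectrum (𝓞 k)) :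
    ∃ (w : HeightOneSpectrum (𝓞 F)) (φ : v.adicCompletion k →+* w.adicCompletion F),
      (∀ x : k, φ (algebraMap k (v.adicCompletion k) x) = algebraMap F (w.adicCompletion F) (algebraMap k F x)) ∧
      ∀ y : w.adicCompletion F, ∃ (n : ℕ) (a : _root_.Fin n → v.adicCompletion k) (x : _root_.Fin n → F),
        y = ∑ i, φ (a i) * algebraMap F (w.adicCompletion F) (x i) := by
  obtain ⟨w, hw⟩ := c2_prime (F := F) v
  obtain ⟨φ, hφ, hc⟩ := c2_map v w hw
  refine ⟨w, φ, hc, fun y => ?_⟩
  let _ : Algebra (v.adicCompletion k) (w.adicCompletion F) := φ.toAlgebra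
  have : ContinuousSMul (v.adicCompletion k) (w.adicCompletion F) := by
    constructor
    have h : (fun p : v.adicCompletion k × w.adicCompletion F => p.1 • p.2) = fun p => φ p.1 * p.2 := by
      ext p
      rw [Algebra.smul_def]
      rfl
    rw [h]
    exact (hφ.comp continuous_fst).mul continuous_snd
  have : IsScalarTower k (v.adicCompletion k) (w.adicCompletion F) := by
    refine IsScalarTower.of_algebraMap_eq fun x => ?_
    rw [RingHom.algebraMap_toAlgebra, hc]
    exact IsScalarTower.algebraMap_apply k F (w.adicCompletion F) x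
  exact c2_gen v w y

end CYS
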