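import Pool.Agent.CYS.C1
import Pool.Agent.CXS.D3

/-!
# [CYS-D] from `N` to `K`, degree prime to `l`

PROOF. As `CXS.fin_down` (CXS/D3.lean), shorter: `W(K)` is finite (`CXS.D3_emb`: injective map to `(W.baseChange N)`-points). `Sha`: `x` is the class of `c`, `l • c` is a coboundary. `CXS.restrict_l` (CXS/D1.lean) with `ι : N →ₐ[K] AlgebraicClosure K` (`IsAlgClosed.lift`) gives `R`. `CXS.D3_index` gives `H` (normal, finite index, the order of the
quotient divides `finrank K N`, so it is prime to `l`: `Nat.Coprime.coprime_dvd_right`). `avg_cop` (C1) with `G = SBSD.AbsGal K`, `ρ σ = Point.map σ` and `R'` from `l • c = coboundary`, as in the proof of `CXS.fin_down`.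
-/

set_option autoImplicit false

open NumberField IsDedekindDomain
open scoped Classical

namespace CYS

/-- [CYS-D] -/
theorem fin_down {K N : Type} [Field K] [NumberField K] [Field N] [NumberField N] [Algebra K N] [IsGalois K N] {l : ℕ}
    (hcop : Nat.Coprime l (Module.finrank K N)) (W : WeierstrassCurve K) (h : CXS.Fin l (W.baseChange N)) : CXS.Fin l W := by
  have hfin := h.1
  obtain ⟨f, hf, -⟩ := CXS.D3_emb (K := K) (N := N) W
  refine ⟨Finite.of_injective f hf, ?_⟩
  intro x hx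
  obtain ⟨c, rfl⟩ := QuotientAddGroup.mk_surjective x
  have h3 : l • c ∈ (SBSD.coboundaries W).addSubgroupOf (SBSD.locTrivial W) := by
    rw [← QuotientAddGroup.eq_zero_iff]
    exact hx
  have h4 : l • c.1 ∈ SBSD.coboundaries W := AddSubgroup.mem_addSubgroupOf.1 h3
  let ι : N →ₐ[K] AlgebraicClosure K := IsAlgClosed.lift
  obtain ⟨R, hR⟩ := CXS.restrict_l l W h.2 c.1 c.2 h4 ι
  obtain ⟨H, hHn, hHf, hHc, hH1, -⟩ := CXS.D3_index ι
  obtain ⟨R', hR'⟩ := h4
  obtain ⟨Q, hQ⟩ := avg_cop (G := SBSD.AbsGal K)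
    (fun σ : SBSD.AbsGal K => WeierstrassCurve.Affine.Point.map (W' := W) σ.toAlgHom)
    (fun σ τ a => by cases a <;> rfl) c.1 c.2.1.2 H R
    (fun σ hσ => hR σ ((hH1 σ).1 hσ))
    (l := l) (Nat.Coprime.coprime_dvd_right hHc hcop) R' (fun σ => hR' σ)
  exact (QuotientAddGroup.eq_zero_iff _).2 (AddSubgroup.mem_addSubgroupOf.2 ⟨Q, hQ⟩)

end CYS
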