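import Pool.Agent.CYS.Defs
import Pool.Agent.JD.P2

/-!
# [CYS-E1] the Selmer condition does not depend on the algebraic closure

PROOF. `e : L' ≃ₐ[F] L` (`IsAlgClosure.equiv F L' L`). For a cocycle `c` on `Gal(L'/F)` let `c₁ (σ) = ptE e (c (e⁻¹ σ e))` for `σ ∈ Gal(L/F)` (`e⁻¹ σ e = (e.trans σ).trans e.symm : L' ≃ₐ[F] L'`, `AlgEquiv.autCongr`). `c₁` is locally constant (the map `σ ↦ e⁻¹ σ e` is continuous: it is a continuous group isomorphism for the Krull topologies,
compare `CXS.s2_cont` in CXS/S2.lean, whose proof can be copied), crossed (`JD.ptE_comp`, `JD.ptE_congr`, `JD.ptE_add`), `TE`-valued (`JD.kerE_ptE`, `JT.twoE_ptE`), locally trivial (for `ι : L → M` use `ι ∘ e : L' → M` for `c`, with the same `Q`). `h` gives `T`; then `ptE e.symm T` works for `c`.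
-/

set_option autoImplicit false

open NumberField IsDedekindDomain
open scoped Classical

namespace CYS

open JD (ED ptE Coc LocTriv phiE KerE omE)
open JT (TwoE)
open CUD (gal_comm alg_comm tau_comm am_ne am_o)

section
variable {F L L' : Type} [Field F] [Field L] [Field L'] [Algebra F L] [Algebra F L']

/-- `e⁻¹ σ e` -/
noncomputable def e1_cj (e : L' ≃ₐ[F] L) (σ : L ≃ₐ[F] L) : L' ≃ₐ[F] L' := (e.trans σ).trans e.symm

theorem e1_cj_apply (e : L' ≃ₐ[F] L) (σ : L ≃ₐ[F] L) (x : L') : e1_cj e σ x = e.symm (σ (e x)) := rfl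

theorem e1_cj_hom (e : L' ≃ₐ[F] L) (σ τ : L ≃ₐ[F] L) : e1_cj e (σ * τ) = e1_cj e σ * e1_cj e τ := by
  ext x
  rw [AlgEquiv.mul_apply, e1_cj_apply, e1_cj_apply, e1_cj_apply, AlgEquiv.apply_symm_apply, AlgEquiv.mul_apply]

theorem e1_cont [Algebra.IsAlgebraic F L] (e : L' ≃ₐ[F] L) :
    Continuous (e1_cj e : (L ≃ₐ[F] L) → (L' ≃ₐ[F] L')) := by
  let f : (L ≃ₐ[F] L) →* (L' ≃ₐ[F] L') := MonoidHom.mk' (e1_cj e) (e1_cj_hom e)
  have hf : ContinuousAt f 1 := by
    rw [ContinuousAt, map_one]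
    intro s hs
    rw [krullTopology_mem_nhds_one_iff] at hs
    obtain ⟨E, hE, hEs⟩ := hs
    rw [Filter.mem_map, krullTopology_mem_nhds_one_iff]
    let b := Module.finBasis F E
    let S : Set L := Set.range fun i => e (b i : L')
    have hfin : Finite S := Set.finite_range _
    refine ⟨IntermediateField.adjoin F S,
      IntermediateField.finiteDimensional_adjoin fun x _ =>
        (Algebra.IsAlgebraic.isAlgebraic (R := F) x).isIntegral, ?_⟩
    intro σ hσ
    apply hEs
    have hσ' : ∀ i, σ (e (b i : L')) = e (b i : L') :=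
      fun i => (IntermediateField.mem_fixingSubgroup_iff _ _).1 hσ _
        (IntermediateField.subset_adjoin F S ⟨i, rfl⟩)
    refine (IntermediateField.mem_fixingSubgroup_iff _ _).2 fun x hx => ?_
    show e1_cj e σ x = x
    have h1 : (⟨x, hx⟩ : E) = ∑ i, b.repr ⟨x, hx⟩ i • b i := (b.sum_repr _).symm
    have h2 : x = ∑ i, algebraMap F L' (b.repr ⟨x, hx⟩ i) * (b i : L') := by
      have := congrArg (fun z : E => (z : L')) h1
      simp only [AddSubmonoidClass.coe_finsetSum, Algebra.smul_def] at this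
      exact this
    rw [h2, map_sum]
    refine Finset.sum_congr rfl fun i _ => ?_
    rw [map_mul, AlgEquiv.commutes, e1_cj_apply e σ (b i : L'), hσ', AlgEquiv.symm_apply_apply]
  exact continuous_of_continuousAt_one f hf

theorem e1_comm (e : L' ≃ₐ[F] L) (d : F) : (e : L' →+* L) (algebraMap F L' d) = algebraMap F L d :=
  e.commutes d

theorem e1_TE {l : ℕ} {K M : Type} [Field K] [Field M] (f : K →+* M) {d : K} {d' : M} (h : f d = d')
    (P : (ED d).toAffine.Point) (hP : TE l P) : TE l (ptE f h P) :=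
  ⟨fun h2 => (JT.twoE_ptE f h P).2 (hP.1 h2), fun h3 => (JD.kerE_ptE f h P).2 (hP.2 h3)⟩

end

/-- [CYS-E1] -/
theorem sel_congr {l : ℕ} {F L L' : Type} [Field F] [NumberField F] [Field L] [Field L'] [Algebra F L] [Algebra F L'] [IsAlgClosure F L] [IsAlgClosure F L']
    {d : F} (h : Sel l F L d) : Sel l F L' d := by
  have : CharZero L := charZero_of_injective_algebraMap (algebraMap F L).injective
  have : CharZero L' := charZero_of_injective_algebraMap (algebraMap F L').injective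
  have : Algebra.IsAlgebraic F L := IsAlgClosure.isAlgebraic
  intro c hc hTE hloc
  let e : L' ≃ₐ[F] L := IsAlgClosure.equiv F L' L
  set c1 : (L ≃ₐ[F] L) → (ED (algebraMap F L d)).toAffine.Point :=
    fun σ => ptE (e : L' →+* L) (e1_comm e d) (c (e1_cj e σ)) with hc1
  have hcoc : Coc F L d c1 := by
    refine ⟨(hc.loc.comp_continuous (e1_cont e)).comp (ptE (e : L' →+* L) (e1_comm e d)), fun σ τ => ?_⟩
    show ptE (e : L' →+* L) (e1_comm e d) (c (e1_cj e (σ * τ))) =
      ptE (e : L' →+* L) (e1_comm e d) (c (e1_cj e σ)) +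
      ptE (σ : L →+* L) (gal_comm σ d) (ptE (e : L' →+* L) (e1_comm e d) (c (e1_cj e τ)))
    rw [e1_cj_hom, hc.crossed, JD.ptE_add, JD.ptE_comp, JD.ptE_comp]
    refine congrArg (fun z => ptE (e : L' →+* L) (e1_comm e d) (c (e1_cj e σ)) + z) (JD.ptE_congr ?_ _ _ _)
    ext x
    show e (e1_cj e σ x) = σ (e x)
    rw [e1_cj_apply, AlgEquiv.apply_symm_apply]
  obtain ⟨T, hT, hcT⟩ := h c1 hcoc (fun σ => e1_TE _ _ _ (hTE _)) (fun v ι => by
    obtain ⟨Q, hQ⟩ := hloc v (ι.comp (e : L' →ₐ[F] L))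
    refine ⟨Q, fun τ σ hστ => ?_⟩
    have h1 := hQ τ (e1_cj e σ) (fun x => by
      show ι (e (e1_cj e σ x)) = τ (ι (e x))
      rw [e1_cj_apply, AlgEquiv.apply_symm_apply, hστ])
    rw [← h1, hc1]
    show ptE (ι : L →+* AlgebraicClosure (v.adicCompletion F)) (alg_comm ι d) (ptE (e : L' →+* L) (e1_comm e d) (c (e1_cj e σ))) = _
    rw [JD.ptE_comp]
    exact JD.ptE_congr rfl _ _ _)
  refine ⟨ptE (e.symm : L →+* L') (e1_comm e.symm d) T, e1_TE _ _ _ hT, fun σ' => ?_⟩
  have h1 := hcT ((e.symm.trans σ').trans e)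
  have h2 : e1_cj e ((e.symm.trans σ').trans e) = σ' := by
    ext x
    show e.symm (e (σ' (e.symm (e x)))) = σ' x
    rw [AlgEquiv.symm_apply_apply, AlgEquiv.symm_apply_apply]
  have h3 : ptE (e : L' →+* L) (e1_comm e d) (c σ') =
      ptE (((e.symm.trans σ').trans e : L ≃ₐ[F] L) : L →+* L) (gal_comm _ d) T - T := by
    rw [← h1, hc1]
    show _ = ptE (e : L' →+* L) (e1_comm e d) (c (e1_cj e ((e.symm.trans σ').trans e)))
    rw [h2]
  have h4 := congrArg (ptE (e.symm : L →+* L') (e1_comm e.symm d)) h3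
  rw [JD.ptE_sub, JD.ptE_comp, JD.ptE_comp] at h4
  have h5 : ∀ hh, ptE ((e.symm : L →+* L').comp (e : L' →+* L)) hh (c σ') = c σ' := by
    intro hh
    refine (JD.ptE_congr (g := RingHom.id L') ?_ hh rfl (c σ')).trans (JD.ptE_id (c σ'))
    ext x
    exact e.symm_apply_apply x
  rw [h5] at h4
  rw [h4, JD.ptE_comp]
  refine congrArg (fun z => z - ptE (e.symm : L →+* L') (e1_comm e.symm d) T) (JD.ptE_congr ?_ _ _ T)
  ext x
  show e.symm (e (σ' (e.symm x))) = σ' (e.symm x)
  rw [AlgEquiv.symm_apply_apply]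

end CYS
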