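import Pool.Agent.CYS.Defs
import Pool.Agent.JT.X2
import Pool.Agent.CXS.V5

/-!
# [CYS-E2] the Selmer condition from the finiteness of `E(F)` and `Sha[l] = 0`

PROOF. `cob_of_sha`: copy of the proof of `JT.cob_of_sha2` (JT/X2.lean) with `l` instead of `2` (`hl : ∀ σ, l • c σ = 0`); the only change is at the infinite places: `v.Completion` is algebraically closed (`CUD.isComplex_of_o`, as there), so an automorphism `τ` of `AlgebraicClosure v.Completion` over `v.Completion` is the identity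
(`IsAlgClosed.algebraMap_surjective_of_isIntegral` or `IsAlgClosed.algebraMap_bijective_of_isIntegral`), `ι (σ x) = ι x` gives `σ = 1`, `c 1 = 0` (`hc.crossed 1 1`), `Q = 0`.
`sel_of_fin`: `c` `TE`-valued: `l • c σ = 0` (`l = 2`: `JT.twoE_iff`; `l = 3`: `JD.kerE_of_phi` as in `CXS.exists_W3`). `cob_of_sha` gives `Q` with `c σ = σ Q - Q`. `l = 2`: `2 • Q` is fixed by the Galois group, so it comes from a point `P` over `F` (`JT.m1a_desc`, see `CXS.u2_fin` for its use); `P ↦ 2 • P` is injective on the finite group `E(F)` (no point of order `2`: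
`JT.x2b_surj` in JT/X2.lean is this surjectivity, with `x ^ 3 ≠ d`), `P = 2 • P₀`, `T = Q - P₀`. `l = 3`: the same with `phiE` (`JD.phiE`, `KerE`), `x ^ 2 ≠ d`: `phiE P = 0` over `F` means `P = 0` or `P = (0, y)`, `y ^ 2 = d`; injective, so surjective on the finite group; the descent of a fixed point: see `CXS.v5_fin` (CXS/V5.lean).
-/

set_option autoImplicit false

open NumberField IsDedekindDomain
open scoped Classical

namespace CYS

open JD (ED ptE Coc LocTriv phiE KerE omE)
open JT (TwoE)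
open CUD (gal_comm alg_comm tau_comm am_ne am_o)

theorem e2_inf {F C : Type} [Field F] [CharZero F] [Field C] [Algebra F C] [IsAlgClosed C] {d : F}
    {c : (AlgebraicClosure F ≃ₐ[F] AlgebraicClosure F) → (ED (algebraMap F (AlgebraicClosure F) d)).toAffine.Point}
    (hc : Coc F (AlgebraicClosure F) d c) : LocTriv c C (AlgebraicClosure C) := by
  intro ι
  have hz : CharZero (AlgebraicClosure C) := charZero_of_injective_algebraMap (algebraMap F (AlgebraicClosure C)).injective
  refine ⟨0, fun τ σ hστ => ?_⟩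
  have hsurj : Function.Surjective (algebraMap C (AlgebraicClosure C)) := IsAlgClosed.algebraMap_bijective_of_isIntegral.2
  have hσ : σ = 1 := by
    ext x
    apply (ι : AlgebraicClosure F →+* AlgebraicClosure C).injective
    obtain ⟨y, hy⟩ := hsurj (ι x)
    show ι (σ x) = ι x
    rw [hστ, ← hy, τ.commutes]
  have h1 : c 1 = 0 := by
    have h2 := hc.crossed 1 1
    rw [mul_one] at h2
    have h3 : ptE ((1 : AlgebraicClosure F ≃ₐ[F] AlgebraicClosure F) : AlgebraicClosure F →+* AlgebraicClosure F)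
        (gal_comm 1 d) (c 1) = 0 := by
      have h4 := h2.symm
      rwa [add_eq_left] at h4
    exact JD.ptE_injective _ _ h3
  rw [hσ, h1, JD.ptE_zero, JD.ptE_zero, sub_zero]

theorem cob_of_sha {F : Type} [Field F] [NumberField F] {d o : F} (ho : o ^ 2 + o + 1 = 0) {l : ℕ}
    (hsha : ∀ x : SBSD.Sha (ED d), l • x = 0 → x = 0)
    {c : (AlgebraicClosure F ≃ₐ[F] AlgebraicClosure F) → (ED (algebraMap F (AlgebraicClosure F) d)).toAffine.Point}
    (hl : ∀ σ, l • c σ = 0) (hc : Coc F (AlgebraicClosure F) d c)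
    (hloc : ∀ v : HeightOneSpectrum (𝓞 F), LocTriv c (v.adicCompletion F) (AlgebraicClosure (v.adicCompletion F))) :
    ∃ P : (ED (algebraMap F (AlgebraicClosure F) d)).toAffine.Point,
      ∀ σ, c σ = ptE (σ : AlgebraicClosure F →+* AlgebraicClosure F) (gal_comm σ d) P - P := by
  let cz : SBSD.AbsGal F → SBSD.Pts (ED d) (AlgebraicClosure F) :=
    fun σ => (JD.trE d (AlgebraicClosure F)).symm (c σ)
  have hmem : cz ∈ SBSD.cocycles (ED d) := by
    refine ⟨hc.loc.comp (JD.trE d (AlgebraicClosure F)).symm, fun σ τ => ?_⟩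
    apply (JD.trE d (AlgebraicClosure F)).injective
    have hgact := JD.trE_map d (AlgebraicClosure F) (AlgebraicClosure F) σ.toAlgHom (cz τ)
    rw [map_add, hgact]
    show (JD.trE d (AlgebraicClosure F)) ((JD.trE d (AlgebraicClosure F)).symm (c (σ * τ))) =
      (JD.trE d (AlgebraicClosure F)) ((JD.trE d (AlgebraicClosure F)).symm (c σ)) +
      ptE _ _ ((JD.trE d (AlgebraicClosure F)) ((JD.trE d (AlgebraicClosure F)).symm (c τ)))
    rw [AddEquiv.apply_symm_apply, AddEquiv.apply_symm_apply, AddEquiv.apply_symm_apply]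
    exact hc.crossed σ τ
  have hcz : cz ∈ SBSD.locTrivial (ED d) := by
    refine ⟨hmem, fun v => JT.x2a_triv _ (hloc v), fun v => JT.x2a_triv _ ?_⟩
    have hv := CUD.isComplex_of_o ho v
    have hC : IsAlgClosed v.Completion :=
      IsAlgClosed.of_ringEquiv ℂ v.Completion (InfinitePlace.Completion.ringEquivComplexOfIsComplex hv).symm
    exact e2_inf hc
  let x : SBSD.Sha (ED d) := QuotientAddGroup.mk ⟨cz, hcz⟩
  have h2 : l • x = 0 := by
    have h3 : l • (⟨cz, hcz⟩ : SBSD.locTrivial (ED d)) = 0 := by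
      apply Subtype.ext
      funext σ
      change l • (JD.trE d (AlgebraicClosure F)).symm (c σ) = 0
      rw [← map_nsmul, hl, map_zero]
    change QuotientAddGroup.mk (l • (⟨cz, hcz⟩ : SBSD.locTrivial (ED d))) = _
    rw [h3]
    rfl
  have h5 := (QuotientAddGroup.eq_zero_iff _).1 (hsha x h2)
  obtain ⟨P, hP⟩ := AddSubgroup.mem_addSubgroupOf.1 h5
  refine ⟨JD.trE d (AlgebraicClosure F) P, fun σ => ?_⟩
  have h6 := congrArg (JD.trE d (AlgebraicClosure F)) (hP σ)
  change JD.trE d (AlgebraicClosure F) ((JD.trE d (AlgebraicClosure F)).symm (c σ)) = _ at h6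
  rw [AddEquiv.apply_symm_apply, map_sub, JD.trE_map d _ _ σ.toAlgHom P] at h6
  exact h6

/-- `c = dP`, `P = ptE Q₁ + T` -/
theorem e2_shift {F : Type} [Field F] [NumberField F] {d : F}
    {c : (AlgebraicClosure F ≃ₐ[F] AlgebraicClosure F) → (ED (algebraMap F (AlgebraicClosure F) d)).toAffine.Point}
    {P : (ED (algebraMap F (AlgebraicClosure F) d)).toAffine.Point}
    (hP : ∀ σ, c σ = ptE (σ : AlgebraicClosure F →+* AlgebraicClosure F) (gal_comm σ d) P - P) (Q₁ : (ED d).toAffine.Point)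
    (σ : AlgebraicClosure F ≃ₐ[F] AlgebraicClosure F) :
    c σ = ptE (σ : AlgebraicClosure F →+* AlgebraicClosure F) (gal_comm σ d) (P - ptE (algebraMap F (AlgebraicClosure F)) rfl Q₁) -
      (P - ptE (algebraMap F (AlgebraicClosure F)) rfl Q₁) := by
  have h4 : ptE (σ : AlgebraicClosure F →+* AlgebraicClosure F) (gal_comm σ d) (ptE (algebraMap F (AlgebraicClosure F)) rfl Q₁) =
      ptE (algebraMap F (AlgebraicClosure F)) rfl Q₁ := by
    rw [JD.ptE_comp]
    refine JD.ptE_congr ?_ _ _ Q₁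
    ext z
    exact σ.commutes z
  rw [JD.ptE_sub, h4, hP σ]
  abel

/-- `phiE` is surjective on the finite group `E_d(K)` -/
theorem e2_surj {K : Type} [Field K] [CharZero K] {d o : K} (hd : d ≠ 0) (ho : o ^ 2 + o + 1 = 0) (hnc : ∀ x : K, x ^ 2 ≠ d)
    (hfin : Finite (ED d).toAffine.Point) (P : (ED d).toAffine.Point) : ∃ Q : (ED d).toAffine.Point, phiE ho Q = P := by
  have h0 : ∀ P : (ED d).toAffine.Point, phiE ho P = 0 → P = 0 := by
    intro P h2
    have h3 := (JD.phiE_eq_zero hd ho P).1 h2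
    cases P with
    | zero => rfl
    | some x y hxy =>
      exfalso
      have hy : x = 0 := h3
      subst hy
      have heq : y ^ 2 = (0 : K) ^ 3 + d := (JD.ED_equation d 0 y).1 hxy.1
      exact hnc y (by linear_combination heq)
  have hinj : Function.Injective (fun P : (ED d).toAffine.Point => phiE ho P) := by
    intro P Q hPQ
    have h2 : phiE ho (P - Q) = 0 := by
      rw [JD.phiE_sub]
      exact sub_eq_zero.2 hPQ
    exact sub_eq_zero.1 (h0 _ h2)
  exact (Finite.injective_iff_surjective.1 hinj) P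

/-- [CYS-E2] -/
theorem sel_of_fin {F : Type} [Field F] [NumberField F] {d o : F} (hd : d ≠ 0) (ho : o ^ 2 + o + 1 = 0) {l : ℕ} (hl : l = 2 ∨ l = 3)
    (hnc : ∀ x : F, x ^ (5 - l) ≠ d) (h : CXS.Fin l (ED d)) : Sel l F (AlgebraicClosure F) d := by
  intro c hc hT hloc
  obtain ⟨hfin, hsha⟩ := h
  have : CharZero (AlgebraicClosure F) :=
    charZero_of_injective_algebraMap (algebraMap F (AlgebraicClosure F)).injective
  rcases hl with rfl | rfl
  · have hT2 : ∀ σ, TwoE (c σ) := fun σ => (hT σ).1 rfl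
    obtain ⟨P, hP⟩ := cob_of_sha ho hsha (fun σ => (JT.twoE_iff _).1 (hT2 σ)) hc hloc
    have hfix : ∀ σ : AlgebraicClosure F ≃ₐ[F] AlgebraicClosure F,
        ptE (σ : AlgebraicClosure F →+* AlgebraicClosure F) (gal_comm σ d) (2 • P) = 2 • P := by
      intro σ
      have h1 := (JT.twoE_iff _).1 (hT2 σ)
      rw [hP σ, nsmul_sub, sub_eq_zero] at h1
      rw [JD.ptE_nsmul, h1]
    obtain ⟨Q₀, hQ₀⟩ := JT.x2b_desc hd (2 • P) hfix
    obtain ⟨Q₁, hQ₁⟩ := JT.x2b_surj hnc hfin Q₀
    refine ⟨P - ptE (algebraMap F (AlgebraicClosure F)) rfl Q₁, ⟨fun _ => ?_, fun h => absurd h (by norm_num)⟩, fun σ => e2_shift hP Q₁ σ⟩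
    rw [JT.twoE_iff, nsmul_sub, ← JD.ptE_nsmul, hQ₁, hQ₀, sub_self]
  · have hT3 : ∀ σ, KerE (c σ) := fun σ => (hT σ).2 rfl
    have hdL : algebraMap F (AlgebraicClosure F) d ≠ 0 := am_ne hd
    have hoL : algebraMap F (AlgebraicClosure F) o ^ 2 + algebraMap F (AlgebraicClosure F) o + 1 = 0 := am_o ho
    obtain ⟨P, hP⟩ := cob_of_sha ho hsha (fun σ => JD.kerE_of_phi hdL hoL (hT3 σ)) hc hloc
    have hfix : ∀ σ : AlgebraicClosure F ≃ₐ[F] AlgebraicClosure F,
        ptE (σ : AlgebraicClosure F →+* AlgebraicClosure F) (gal_comm σ d) (phiE hoL P) = phiE hoL P := by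
      intro σ
      have h1 := (JD.phiE_eq_zero hdL hoL _).2 (hT3 σ)
      rw [hP σ, JD.phiE_sub, sub_eq_zero,
        JD.phiE_ptE hoL (σ : AlgebraicClosure F →+* AlgebraicClosure F) (gal_comm σ d) hoL (gal_comm σ o)] at h1
      exact h1
    obtain ⟨Q₀, hQ₀⟩ := JT.x2b_desc hd (phiE hoL P) hfix
    obtain ⟨Q₁, hQ₁⟩ := e2_surj hd ho hnc hfin Q₀
    refine ⟨P - ptE (algebraMap F (AlgebraicClosure F)) rfl Q₁, ⟨fun h => absurd h (by norm_num), fun _ => ?_⟩, fun σ => e2_shift hP Q₁ σ⟩
    rw [← JD.phiE_eq_zero hdL hoL, JD.phiE_sub, JD.phiE_ptE ho (algebraMap F (AlgebraicClosure F)) rfl hoL rfl, hQ₁, hQ₀, sub_self]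

end CYS
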