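import Pool.Agent.CYS.Defs
import Pool.Agent.CXS.U2
import Pool.Agent.CXS.V5

/-!
# [CYS-F] finiteness from the Selmer condition; the subgroups `W`
-/

set_option autoImplicit false

open NumberField IsDedekindDomain
open scoped Classical

namespace CYS

open JD (ED ptE Coc LocTriv phiE KerE omE)
open JT (TwoE)
open CXS (Adm)
open CUD (gal_comm alg_comm tau_comm am_ne am_o)

theorem TE_two {K : Type} [Field K] {d : K} (P : (ED d).toAffine.Point) : TE 2 P ↔ TwoE P :=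
  ⟨fun h => h.1 rfl, fun h => ⟨fun _ => h, fun h3 => absurd h3 (by norm_num)⟩⟩

theorem TE_three {K : Type} [Field K] {d : K} (P : (ED d).toAffine.Point) : TE 3 P ↔ KerE P :=
  ⟨fun h => h.2 rfl, fun h => ⟨fun h3 => absurd h3 (by norm_num), fun _ => h⟩⟩

/-- [CYS-F1] -/
theorem exists_W {K N L : Type} [Field K] [CharZero K] [Field N] [CharZero N] [Field L] [Algebra K N] [Algebra N L] [Algebra K L] [IsScalarTower K N L]
    [IsAlgClosure N L] {d o : K} (hd : d ≠ 0) (ho : o ^ 2 + o + 1 = 0) {l : ℕ} (hl : l = 2 ∨ l = 3) (hnc : ∀ x : N, x ^ (5 - l) ≠ algebraMap K N d) :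
    ∃ W : AddSubgroup (ED (algebraMap N L (algebraMap K N d))).toAffine.Point, (∀ P, P ∈ W ↔ TE l P) ∧ Adm l K N W := by
  rcases hl with rfl | rfl
  · obtain ⟨W, h1, h2⟩ := CXS.exists_W2 (L := L) hd hnc
    exact ⟨W, fun P => (h1 P).trans (TE_two P).symm, h2⟩
  · obtain ⟨W, h1, h2⟩ := CXS.exists_W3 (L := L) hd ho hnc
    exact ⟨W, fun P => (h1 P).trans (TE_three P).symm, h2⟩

/-- [CYS-F2] -/
theorem fin_of_sel {F : Type} [Field F] [NumberField F] {d o : F} (hd : d ≠ 0) (hdi : IsIntegral ℤ d) (ho : o ^ 2 + o + 1 = 0) {l : ℕ} (hl : l = 2 ∨ l = 3)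
    (hnc : ∀ x : F, x ^ (5 - l) ≠ d) (h : Sel l F (AlgebraicClosure F) d) : CXS.Fin l (ED d) := by
  rcases hl with rfl | rfl
  · refine CXS.u2_fin hd hdi ho hnc fun c hc hT hl => ?_
    obtain ⟨T, h1, h2⟩ := h c hc (fun σ => (TE_two _).2 (hT σ)) hl
    exact ⟨T, (TE_two _).1 h1, h2⟩
  · refine CXS.v5_fin hd hdi ho hnc fun c hc hT hl => ?_
    obtain ⟨T, h1, h2⟩ := h c hc (fun σ => (TE_three _).2 (hT σ)) hl
    exact ⟨T, (TE_three _).1 h1, h2⟩

end CYS
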