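import Pool.Agent.CYS.A
import Pool.Agent.CXS.S2

/-!
# [CYS-G1] twisting of cocycles

PROOF. `X = algebraMap N L x` is fixed by `Gal(L/N)` and goes to `algebraMap N Lv x` under `ι`: `scE_ptE`. `tw_coc`: `hc.loc.comp`, `map_add`. `tw_loc`: the point `scE Q` (with `algebraMap N Lv x`). `tw_dN`: `map_sub`, `scE_ptE`. `tw_ac`: `ptE g (scE X (c (cj g σ))) = scE (g X) (ptE g (c (cj g σ)))` (`scE_ptE`), then `scE_scE` for `(scE X)⁻¹`: apply `scE X` to both sides,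
`X * (g X / X) = g X`.
-/

set_option autoImplicit false

open NumberField IsDedekindDomain
open scoped Classical

namespace CYS

open JD (ED ptE Coc LocTriv phiE KerE omE)
open JT (TwoE)
open CXS (Ch ac cj dN)
open CUD (gal_comm alg_comm tau_comm am_ne am_o)

section
variable {N L : Type} [Field N] [CharZero N] [Field L] [Algebra N L] {d₁ d₂ x : N}

theorem tw_eq (h : d₁ * x ^ 6 = d₂) : algebraMap N L d₁ * algebraMap N L x ^ 6 = algebraMap N L d₂ := by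
  rw [← map_pow, ← map_mul, h]

/-- the twisted cocycle -/
noncomputable def tw (hx : x ≠ 0) (h : d₁ * x ^ 6 = d₂) (c : (L ≃ₐ[N] L) → (ED (algebraMap N L d₁)).toAffine.Point) :
    (L ≃ₐ[N] L) → (ED (algebraMap N L d₂)).toAffine.Point := fun σ => scE (am_ne (L := L) hx) (tw_eq h) (c σ)

theorem tw_coc (hx : x ≠ 0) (h : d₁ * x ^ 6 = d₂) {c : (L ≃ₐ[N] L) → (ED (algebraMap N L d₁)).toAffine.Point} (hc : Coc N L d₁ c) : Coc N L d₂ (tw hx h c) := by
  refine ⟨hc.loc.comp (scE (am_ne (L := L) hx) (tw_eq h)), fun σ τ => ?_⟩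
  show scE (am_ne (L := L) hx) (tw_eq h) (c (σ * τ)) = scE (am_ne (L := L) hx) (tw_eq h) (c σ) +
    ptE (σ : L →+* L) (gal_comm σ d₂) (scE (am_ne (L := L) hx) (tw_eq h) (c τ))
  rw [hc.crossed, map_add, scE_ptE (σ : L →+* L) (am_ne (L := L) hx) (tw_eq h) (gal_comm σ d₁) (gal_comm σ d₂)
    (am_ne (L := L) hx) (gal_comm σ x) (tw_eq h)]

theorem tw_loc (hx : x ≠ 0) (h : d₁ * x ^ 6 = d₂) {c : (L ≃ₐ[N] L) → (ED (algebraMap N L d₁)).toAffine.Point} {Fv Lv : Type} [Field Fv]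
    [Algebra N Fv] [Field Lv] [Algebra Fv Lv] [Algebra N Lv] [IsScalarTower N Fv Lv] (hl : LocTriv c Fv Lv) : LocTriv (tw hx h c) Fv Lv := by
  intro ι
  obtain ⟨Q, hQ⟩ := hl ι
  refine ⟨scE (am_ne (L := Lv) hx) (tw_eq h) Q, fun τ σ hτ => ?_⟩
  show ptE (ι : L →+* Lv) (alg_comm ι d₂) (scE (am_ne (L := L) hx) (tw_eq h) (c σ)) = _
  rw [scE_ptE (ι : L →+* Lv) (am_ne (L := L) hx) (tw_eq h) (alg_comm ι d₁) (alg_comm ι d₂)
    (am_ne (L := Lv) hx) (alg_comm ι x) (tw_eq h), hQ τ σ hτ, map_sub,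
    scE_ptE (τ : Lv →+* Lv) (am_ne (L := Lv) hx) (tw_eq h) (tau_comm N Fv Lv τ d₁) (tau_comm N Fv Lv τ d₂)
    (am_ne (L := Lv) hx) (tau_comm N Fv Lv τ x) (tw_eq h)]

theorem tw_dN (hx : x ≠ 0) (h : d₁ * x ^ 6 = d₂) (T : (ED (algebraMap N L d₁)).toAffine.Point) :
    (dN (scE (am_ne (L := L) hx) (tw_eq h) T) : (L ≃ₐ[N] L) → _) = tw hx h (dN T) := by
  funext σ
  show ptE (σ : L →+* L) (gal_comm σ d₂) (scE (am_ne (L := L) hx) (tw_eq h) T) - scE (am_ne (L := L) hx) (tw_eq h) T =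
    scE (am_ne (L := L) hx) (tw_eq h) (ptE (σ : L →+* L) (gal_comm σ d₁) T - T)
  rw [map_sub, scE_ptE (σ : L →+* L) (am_ne (L := L) hx) (tw_eq h) (gal_comm σ d₁) (gal_comm σ d₂)
    (am_ne (L := L) hx) (gal_comm σ x) (tw_eq h)]

end

section
variable {K N L : Type} [Field K] [CharZero K] [Field N] [CharZero N] [Field L] [Algebra K N] [Algebra N L] [Algebra K L] [IsScalarTower K N L] [Normal K N]
  {d d' : K} {x : N}

theorem tw_z (hx : x ≠ 0) (h : algebraMap K N d * x ^ 6 = algebraMap K N d') (q : N ≃ₐ[K] N) :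
    algebraMap N L (q x / x) ≠ 0 ∧ algebraMap N L (algebraMap K N d) * algebraMap N L (q x / x) ^ 6 = algebraMap N L (algebraMap K N d) := by
  have hq : q x ≠ 0 := (map_ne_zero q).2 hx
  have h1 : algebraMap K N d * q x ^ 6 = algebraMap K N d' := by
    have h2 := congrArg q h
    rwa [map_mul, map_pow, q.commutes, q.commutes] at h2
  have h3 : algebraMap K N d * (q x / x) ^ 6 = algebraMap K N d := by
    rw [div_pow, ← mul_div_assoc, h1, ← h, mul_div_assoc, div_self (pow_ne_zero 6 hx), mul_one]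
  refine ⟨am_ne (div_ne_zero hq hx), ?_⟩
  rw [← map_pow, ← map_mul, h3]

theorem tw_ac (hx : x ≠ 0) (h : algebraMap K N d * x ^ 6 = algebraMap K N d') (g : L ≃ₐ[K] L) (q : N ≃ₐ[K] N)
    (hg : ∀ y : N, g (algebraMap N L y) = algebraMap N L (q y)) (c : Ch K N L d) (σ : L ≃ₐ[N] L) :
    ac g (tw hx h c : Ch K N L d') σ = scE (am_ne (L := L) hx) (tw_eq h)
      (scE (tw_z (L := L) hx h q).1 (tw_z (L := L) hx h q).2 (ac g c σ)) := by
  have hq : q x ≠ 0 := (map_ne_zero q).2 hx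
  have h1 : algebraMap K N d * q x ^ 6 = algebraMap K N d' := by
    have h2 := congrArg q h
    rwa [map_mul, map_pow, q.commutes, q.commutes] at h2
  show ptE (g : L →+* L) (CXS.gN g d') (scE (am_ne (L := L) hx) (tw_eq h) (c (cj g σ))) = _
  rw [scE_ptE (g : L →+* L) (am_ne (L := L) hx) (tw_eq h) (CXS.gN g d) (CXS.gN g d')
    (am_ne (L := L) hq) (hg x) (tw_eq h1), scE_scE]
  refine scE_congr _ _ _ _ ?_ _
  rw [← map_mul, mul_div_cancel₀ _ hx]

end

end CYS
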