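import Pool.Agent.CYS.Defs
import Pool.Agent.CXS.S9

/-!
# [CYS-G2] the sum of the conjugates over `Gal(N/K)`

PROOF. `sum_S`: the three properties are closed under finite sums (`Finset.sum_induction` or `Finset.induction_on`; `CXS.s9_coc_add`, `CXS.s9_loc_add`, `CXS.s9_coc_dN 0`, `CXS.s9_dN_zero` in CXS/S9.lean), and hold for `ac g c` (`CXS.ac_coc`, `hW.stab`, `CXS.ac_loc`).
`sum_inv`: `ac g` is additive (`CXS.ac_add`): `ac g P = ∑ ac (g * lift q) c` (`CXS.ac_mul`). Let `g₀ = g.restrictNormal N`. `g * lift q = lift (g₀ * q) * res u_q` with `u_q ∈ Gal(L/N)`: `(lift (g₀ * q))⁻¹ * (g * lift q)` is the identity on `N`, `CXS.s9_res`-type argument (`AlgEquiv.ofRingEquiv`). `ac (res u) c = c + dN (c u)` (`CXS.ac_inner`), so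
`ac (g * lift q) c = ac (lift (g₀ q)) c + dN (lift (g₀ q) (c u))` (`CXS.ac_mul`, `CXS.ac_add`, `CXS.ac_dN`). Summation over `q` (reindexing `q ↦ g₀ * q`: `Equiv.mulLeft`, `Fintype.sum_equiv`): `ac g P - P = ∑ dN (..) = dN (∑ ..)` (`CXS.s9_dN_add`), the points are in `W` (`hW.stab`).
-/

set_option autoImplicit false

open NumberField IsDedekindDomain
open scoped Classical

namespace CYS

open JD (ED ptE Coc LocTriv)
open CXS (Ch ac cj dN res Adm)
open CUD (gal_comm alg_comm tau_comm am_ne am_o)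

section
variable {K N L : Type} [Field K] [CharZero K] [Field N] [NumberField N] [Field L] [Algebra K N] [Algebra N L] [Algebra K L] [IsScalarTower K N L]
  [FiniteDimensional K N] [IsGalois K N] [IsAlgClosure N L] {d : K} {l : ℕ}

theorem exists_lift : ∃ lift : (N ≃ₐ[K] N) → (L ≃ₐ[K] L), ∀ q (x : N), lift q (algebraMap N L x) = algebraMap N L (q x) := by
  have h1 : Algebra.IsAlgebraic N L := IsAlgClosure.isAlgebraic
  have h2 : Algebra.IsAlgebraic K L := Algebra.IsAlgebraic.trans K N L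
  have h3 : IsAlgClosed L := IsAlgClosure.isAlgClosed N
  have h4 : IsAlgClosure K L := ⟨h3, h2⟩
  have h5 : Normal K L := IsAlgClosure.normal K L
  exact ⟨fun q => q.liftNormal L, fun q x => q.liftNormal_commutes L x⟩

/-- an automorphism which is the identity on `N` -/
theorem g2_res (g : L ≃ₐ[K] L) (hg : ∀ x : N, g (algebraMap N L x) = algebraMap N L x) : ∃ σ : L ≃ₐ[N] L, res σ = g :=
  ⟨AlgEquiv.ofRingEquiv (f := g.toRingEquiv) hg, AlgEquiv.ext (fun _ => rfl)⟩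

theorem sum_S {W : AddSubgroup (ED (algebraMap N L (algebraMap K N d))).toAffine.Point} (hW : Adm l K N W) {c : Ch K N L d}
    (hc : Coc N L (algebraMap K N d) c) (hcW : ∀ σ, c σ ∈ W)
    (hloc : ∀ w : HeightOneSpectrum (𝓞 N), LocTriv c (w.adicCompletion N) (AlgebraicClosure (w.adicCompletion N)))
    (lift : (N ≃ₐ[K] N) → (L ≃ₐ[K] L)) :
    Coc N L (algebraMap K N d) (∑ q, ac (lift q) c) ∧ (∀ σ, (∑ q, ac (lift q) c) σ ∈ W) ∧
      ∀ w : HeightOneSpectrum (𝓞 N), LocTriv (∑ q, ac (lift q) c) (w.adicCompletion N) (AlgebraicClosure (w.adicCompletion N)) := by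
  have h1 : Algebra.IsAlgebraic N L := IsAlgClosure.isAlgebraic
  refine Finset.sum_induction (fun q => ac (lift q) c) (fun c : Ch K N L d => Coc N L (algebraMap K N d) c ∧ (∀ σ, c σ ∈ W) ∧
      ∀ w : HeightOneSpectrum (𝓞 N), LocTriv c (w.adicCompletion N) (AlgebraicClosure (w.adicCompletion N))) ?_ ?_ ?_
  · intro a b ha hb
    exact ⟨CXS.s9_coc_add ha.1 hb.1, fun σ => W.add_mem (ha.2.1 σ) (hb.2.1 σ), fun w => CXS.s9_loc_add (ha.2.2 w) (hb.2.2 w)⟩
  · have h : (0 : Ch K N L d) = dN 0 := CXS.s9_dN_zero.symm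
    rw [h]
    refine ⟨CXS.s9_coc_dN _, fun σ => ?_, fun w => CXS.s9_loc_dN _⟩
    rw [CXS.s9_dN_zero]
    exact W.zero_mem
  · intro q _
    exact ⟨CXS.ac_coc (lift q) hc, fun σ => hW.stab (lift q) _ (hcW _), fun w => CXS.ac_loc (lift q) hloc w⟩

theorem sum_inv {W : AddSubgroup (ED (algebraMap N L (algebraMap K N d))).toAffine.Point} (hW : Adm l K N W) {c : Ch K N L d}
    (hc : Coc N L (algebraMap K N d) c) (hcW : ∀ σ, c σ ∈ W)
    (lift : (N ≃ₐ[K] N) → (L ≃ₐ[K] L)) (hlift : ∀ q (x : N), lift q (algebraMap N L x) = algebraMap N L (q x)) (g : L ≃ₐ[K] L) :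
    ∃ T ∈ W, ac g (∑ q, ac (lift q) c) - ∑ q, ac (lift q) c = dN T := by
  set g0 : N ≃ₐ[K] N := g.restrictNormal N with hg0
  have hu : ∀ q : N ≃ₐ[K] N, ∃ σ : L ≃ₐ[N] L, g * lift q = lift (g0 * q) * res σ := by
    intro q
    obtain ⟨σ, hσ⟩ := g2_res (K := K) (N := N) ((lift (g0 * q))⁻¹ * (g * lift q)) (fun x => by
      rw [AlgEquiv.mul_apply, AlgEquiv.mul_apply, hlift, CXS.nor_apply, ← hg0]
      have h1 := hlift (g0 * q) x
      rw [AlgEquiv.mul_apply] at h1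
      rw [← h1]
      exact (lift (g0 * q)).symm_apply_apply _)
    exact ⟨σ, by rw [hσ, mul_inv_cancel_left]⟩
  choose u hu using hu
  set t : (N ≃ₐ[K] N) → (ED (algebraMap N L (algebraMap K N d))).toAffine.Point :=
    fun q => ptE (lift (g0 * q) : L →+* L) (CXS.gN (lift (g0 * q)) d) (c (u q)) with ht
  have h1 : ∀ q, ac g (ac (lift q) c) = ac (lift (g0 * q)) c + dN (t q) := by
    intro q
    have h2 := CXS.ac_inner hc (u q)
    rw [sub_eq_iff_eq_add'] at h2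
    rw [← CXS.ac_mul, hu, CXS.ac_mul, h2, CXS.ac_add, CXS.ac_dN]
  refine ⟨∑ q, t q, sum_mem fun q _ => hW.stab _ _ (hcW _), ?_⟩
  have h3 : ac g (∑ q, ac (lift q) c) = ∑ q, ac g (ac (lift q) c) :=
    map_sum (AddMonoidHom.mk' (ac g : Ch K N L d → Ch K N L d) (CXS.ac_add g)) _ _
  have h4 : (dN (∑ q, t q) : (L ≃ₐ[N] L) → _) = ∑ q, dN (t q) :=
    map_sum (AddMonoidHom.mk' (dN : _ → Ch K N L d) CXS.s9_dN_add) _ _
  rw [h3, Finset.sum_congr rfl fun q _ => h1 q, Finset.sum_add_distrib, h4]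
  have h5 : ∑ q, ac (lift (g0 * q)) c = ∑ q, ac (lift q) c :=
    Fintype.sum_equiv (Equiv.mulLeft g0) _ _ fun q => rfl
  rw [h5, add_sub_cancel_left]

end

end CYS
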