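import Pool.Agent.CYS.Defs

/-!
# [CYS-H] `F / k` is a Galois extension

PROOF. `z ^ m = 1`, `z ≠ 0` in `F` implies `z ∈ k`: `m = 2`: `z = ± 1`; `m = 3`: `z ∈ {1, o, o ^ 2}` (`z ^ 3 - 1 = (z - 1)(z - o)(z - o²)`). So all conjugates of `ε i` (roots of `X ^ m - e i`) are in `F` and the polynomial `X ^ m - C (e i)` splits in `F`: `F` is the splitting field of `∏ (X ^ m - C (e i))` (separable: characteristic `0`;
`IsGalois.of_separable_splitting_field`), or `Normal` by `IntermediateField.normal_iSup`/`IntermediateField.splits_of_mem_adjoin` (a `k`-generated field whose generators have splitting minimal polynomials is normal; `minpoly k (ε i) ∣ X ^ m - C (e i)`). The case `e i = 0` is allowed or use `he`.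
Compare the proof of `CX.kum_galois` (base field `KK`) in `Pool/Agent/CX/L6.lean` on main (`git -C outputs/live show origin/main:Pool/Agent/CX/L6.lean`).
`gal_ne`: if `g (ε i) = ε i` for all `i`, then `g` and `1` agree on `adjoin k (range ε) = ⊤`, so `g = 1` (`IntermediateField.adjoin_induction`, or the fixed field of `g` contains the range, or `AlgHom.ext_of_adjoin_eq_top`-type lemma).
`gal_act`: `(g (ε i) / ε i) ^ m = 1`.
-/

set_option autoImplicit false

open NumberField IsDedekindDomain
open scoped Classical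

namespace CYS

variable {k F : Type} [Field k] [NumberField k] [Field F] [NumberField F] [Algebra k F] {m b : ℕ} {e : _root_.Fin b → k} {ε : _root_.Fin b → F}

omit [NumberField k] in
theorem h_prim (hm : m = 2 ∨ m = 3) {o : k} (ho : o ^ 2 + o + 1 = 0) : ∃ ζ : F, IsPrimitiveRoot ζ m := by
  rcases hm with rfl | rfl
  · exact ⟨-1, IsPrimitiveRoot.neg_one 0 (by norm_num)⟩
  · have ho' : (algebraMap k F o) ^ 2 + algebraMap k F o + 1 = 0 := by
      rw [← map_pow, ← map_add, ← map_one (algebraMap k F), ← map_add, ho, map_zero]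
    refine ⟨algebraMap k F o, ?_⟩
    have h0 : (algebraMap k F o) ^ 3 = 1 := by
      linear_combination (algebraMap k F o - 1) * ho'
    have h1 : algebraMap k F o ≠ 1 := by
      intro h
      rw [h] at ho'
      have h3 : (3 : F) = 0 := by linear_combination ho'
      exact absurd h3 (by norm_num)
    have h2 : orderOf (algebraMap k F o) = 3 := orderOf_eq_prime h0 h1
    rw [← h2]
    exact IsPrimitiveRoot.orderOf _

/-- [CYS-H1] -/
theorem gal_of (hm : m = 2 ∨ m = 3) {o : k} (ho : o ^ 2 + o + 1 = 0) (he : ∀ i, e i ≠ 0) (hp : ∀ i, ε i ^ m = algebraMap k F (e i))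
    (ht : IntermediateField.adjoin k (Set.range ε) = ⊤) : IsGalois k F := by
  have hn : Normal k F := by
    refine { isAlgebraic := Algebra.IsAlgebraic.isAlgebraic, splits' := fun x => ?_ }
    apply IntermediateField.splits_of_mem_adjoin (F := k) (K := F) (L := F) (S := Set.range ε)
    · rintro _ ⟨i, rfl⟩
      refine ⟨Algebra.IsIntegral.isIntegral _, ?_⟩
      obtain ⟨ζ, hζ⟩ := h_prim (F := F) hm ho
      have h1 := X_pow_sub_C_splits_of_isPrimitiveRoot hζ (hp i)
      have hl0 : 0 < m := by rcases hm with rfl | rfl <;> norm_num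
      have h2 : minpoly k (ε i) ∣ (Polynomial.X ^ m - Polynomial.C (e i)) := by
        apply minpoly.dvd
        rw [map_sub, map_pow, Polynomial.aeval_X, Polynomial.aeval_C, hp i]
        exact sub_self _
      have h3 : (Polynomial.X ^ m - Polynomial.C (e i)).map (algebraMap k F) =
          Polynomial.X ^ m - Polynomial.C (algebraMap k F (e i)) := by
        rw [Polynomial.map_sub, Polynomial.map_pow, Polynomial.map_X, Polynomial.map_C]
      refine h1.of_dvd ?_ ?_
      · exact (Polynomial.monic_X_pow_sub_C _ hl0.ne').ne_zero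
      · rw [← h3]
        exact Polynomial.map_dvd _ h2
    · rw [ht]
      exact IntermediateField.mem_top
  exact { }

/-- [CYS-H2] -/
theorem gal_ne (ht : IntermediateField.adjoin k (Set.range ε) = ⊤) (g : F ≃ₐ[k] F) (hg : g ≠ 1) : ∃ i, g (ε i) ≠ ε i := by
  by_contra hcon
  push Not at hcon
  apply hg
  ext x
  have hx : x ∈ IntermediateField.adjoin k (Set.range ε) := by
    rw [ht]
    exact IntermediateField.mem_top
  change g x = x
  induction hx using IntermediateField.adjoin_induction with
  | mem y hy =>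
    obtain ⟨i, rfl⟩ := hy
    exact hcon i
  | algebraMap y => exact g.commutes y
  | add y z _ _ hy hz => rw [map_add, hy, hz]
  | inv y _ hy => rw [map_inv₀, hy]
  | mul y z _ _ hy hz => rw [map_mul, hy, hz]

/-- [CYS-H3] -/
theorem gal_act (he : ∀ i, e i ≠ 0) (hp : ∀ i, ε i ^ m = algebraMap k F (e i)) (g : F ≃ₐ[k] F) (i : _root_.Fin b) : (g (ε i) / ε i) ^ m = 1 := by
  have h1 : g (ε i) ^ m = ε i ^ m := by rw [← map_pow, hp, g.commutes]
  have h2 : ε i ^ m ≠ 0 := by
    rw [hp]
    exact (map_ne_zero _).2 (he i)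
  rw [div_pow, h1, div_self h2]

end CYS
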