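import Pool.Agent.CYS.B
import Pool.Agent.CYS.C
import Pool.Agent.CYS.F
import Pool.Agent.CYS.G1
import Pool.Agent.CYS.G2
import Pool.Agent.CYS.H

/-!
# [CYS-G] the Selmer condition over `F` from the Selmer conditions of the twists over `k`
-/

set_option autoImplicit false

open NumberField IsDedekindDomain
open scoped Classical

namespace CYS

open JD (ED ptE Coc LocTriv phiE KerE omE)
open JT (TwoE)
open CXS (Ch ac cj dN res Adm tr)
open CUD (gal_comm alg_comm tau_comm am_ne am_o)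

section
variable {k F : Type} [Field k] [Field F] [Algebra k F] {l m b : ℕ} {e : _root_.Fin b → k} {ε : _root_.Fin b → F}

theorem zp_pow (hp : ∀ i, ε i ^ m = algebraMap k F (e i)) (ψ : _root_.Fin b → ZMod m) : zp ε ψ ^ m = algebraMap k F (zp e ψ) := by
  rw [zp, zp, map_prod, ← Finset.prod_pow]
  refine Finset.prod_congr rfl fun i _ => ?_
  rw [map_pow, ← hp, ← pow_mul, ← pow_mul, mul_comm]

theorem tw_d (hm : l * m = 6) (hp : ∀ i, ε i ^ m = algebraMap k F (e i)) (d : k) (ψ : _root_.Fin b → ZMod m) :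
    algebraMap k F d * zp ε ψ ^ 6 = algebraMap k F (d * zp e ψ ^ l) := by
  rw [map_mul, map_pow, ← zp_pow hp, ← pow_mul, mul_comm m l, hm]

/-- the twist has no root either -/
theorem tw_root (hl : l = 2 ∨ l = 3) {d d' x : F} (hx : x ≠ 0) (h : d * x ^ 6 = d') (hnc : ∀ y : F, y ^ (5 - l) ≠ d) (y : F) : y ^ (5 - l) ≠ d' := by
  intro hy
  rcases hl with rfl | rfl
  · apply hnc (y / x ^ 2)
    rw [div_pow, hy, ← h, ← pow_mul]
    exact mul_div_cancel_right₀ d (pow_ne_zero 6 hx)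
  · apply hnc (y / x ^ 3)
    rw [div_pow, hy, ← h, ← pow_mul]
    exact mul_div_cancel_right₀ d (pow_ne_zero 6 hx)

theorem TE_ptE {K L : Type} [Field K] [Field L] (f : K →+* L) {d : K} {d' : L} (h : f d = d') (P : (ED d).toAffine.Point) :
    TE l (ptE f h P) ↔ TE l P := by
  unfold TE
  rw [JT.twoE_ptE, JD.kerE_ptE]

theorem zp_map {L : Type} [Field L] (f : F →+* L) (q : F ≃ₐ[k] F) (ψ : _root_.Fin b → ZMod m) :
    f (q (zp ε ψ) / zp ε ψ) = zp (fun i => f (q (ε i) / ε i)) ψ := by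
  simp only [zp, map_prod, map_pow, ← Finset.prod_div_distrib, ← div_pow]

theorem cop_of (hl : l = 2 ∨ l = 3) (hm : l * m = 6) (b : ℕ) : Nat.Coprime l (m ^ b) := by
  apply Nat.Coprime.pow_right
  rcases hl with rfl | rfl
  · have : m = 3 := by omega
    subst this
    norm_num
  · have : m = 2 := by omega
    subst this
    norm_num

end

/-- `dN` as a homomorphism -/
noncomputable def dNh {N : Type} (L : Type) [Field N] [Field L] [Algebra N L] (d : N) :
    (ED (algebraMap N L d)).toAffine.Point →+ ((L ≃ₐ[N] L) → (ED (algebraMap N L d)).toAffine.Point) :=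
  AddMonoidHom.mk' (fun T => dN T) CXS.s9_dN_add

theorem dNh_apply {N L : Type} [Field N] [Field L] [Algebra N L] {d : N} (T : (ED (algebraMap N L d)).toAffine.Point) : dNh L d T = dN T := rfl

/-- [CYS-G] -/
theorem up {k F L : Type} [Field k] [NumberField k] [Field F] [NumberField F] [Field L] [Algebra k F] [Algebra F L] [Algebra k L] [IsScalarTower k F L]
    [IsAlgClosure F L] [IsGalois k F] {l m b : ℕ} [NeZero m] (hl : l = 2 ∨ l = 3) (hm : l * m = 6) {d o : k} (hd : d ≠ 0) (ho : o ^ 2 + o + 1 = 0)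
    {e : _root_.Fin b → k} (he : ∀ i, e i ≠ 0) {ε : _root_.Fin b → F} (hp : ∀ i, ε i ^ m = algebraMap k F (e i))
    (hne : ∀ g : F ≃ₐ[k] F, g ≠ 1 → ∃ i, g (ε i) ≠ ε i) (hr : Module.finrank k F = m ^ b) (hnc : ∀ x : F, x ^ (5 - l) ≠ algebraMap k F d)
    (hsel : ∀ ψ : _root_.Fin b → ZMod m, Sel l k L (d * zp e ψ ^ l)) : Sel l F L (algebraMap k F d) := by
  intro c hc hT hloc
  have hFL : CharZero L := charZero_of_injective_algebraMap (algebraMap F L).injective
  have hcop : Nat.Coprime l (Module.finrank k F) := by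
    rw [hr]
    exact cop_of hl hm b
  have hε : ∀ i, ε i ≠ 0 := by
    intro i h
    have h1 := hp i
    rw [h, zero_pow (NeZero.ne m)] at h1
    exact he i ((map_eq_zero _).1 h1.symm)
  obtain ⟨lift, hlift⟩ := exists_lift (K := k) (N := F) (L := L)
  have htr : ∀ {d₀ : k} (P : (ED (algebraMap k L d₀)).toAffine.Point), TE l (tr k F P) ↔ TE l P := fun P => TE_ptE _ _ P
  have key : ∀ ψ : _root_.Fin b → ZMod m, ∃ T : (ED (algebraMap F L (algebraMap k F (d * zp e ψ ^ l)))).toAffine.Point, TE l T ∧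
      ∑ q, ac (lift q) (tw (zp_ne hε ψ) (tw_d hm hp d ψ) c : Ch k F L (d * zp e ψ ^ l)) = dN T := by
    intro ψ
    have hdψ : d * zp e ψ ^ l ≠ 0 := mul_ne_zero hd (pow_ne_zero _ (zp_ne he ψ))
    have hncψ : ∀ x : F, x ^ (5 - l) ≠ algebraMap k F (d * zp e ψ ^ l) := tw_root hl (zp_ne hε ψ) (tw_d hm hp d ψ) hnc
    obtain ⟨W, hW1, hW2⟩ := exists_W (L := L) hdψ ho hl hncψ
    have h1 := tw_coc (zp_ne hε ψ) (tw_d hm hp d ψ) hc
    have h2 : ∀ σ, tw (zp_ne hε ψ) (tw_d hm hp d ψ) c σ ∈ W := fun σ => (hW1 _).2 ((scE_TE _ _ _).2 (hT σ))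
    have h3 := fun w => tw_loc (zp_ne hε ψ) (tw_d hm hp d ψ) (hloc w)
    obtain ⟨s1, s2, s3⟩ := sum_S hW2 h1 h2 h3 lift
    obtain ⟨c', t1, t2, t3⟩ := CXS.ext_coc hW2 s1 s2 (sum_inv hW2 h1 h2 lift hlift)
    have hkill : ∀ σ, l • c' σ = 0 := by
      intro σ
      apply CXS.tr_inj (K := k) (N := F)
      have h4 : tr k F (l • c' σ) = l • tr k F (c' σ) := JD.ptE_nsmul _ _ _ _
      rw [h4, hW2.kill _ (t2 σ)]
      rfl
    have hloc' := loc_down hcop s3 t1 hkill t3
    obtain ⟨T, hT1, hT2⟩ := hsel ψ c' t1 (fun σ => (htr _).1 ((hW1 _).1 (t2 σ))) hloc'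
    exact ⟨tr k F T, (htr _).2 hT1, CXS.cob_res t3 hT2⟩
  choose T hT1 hT2 using key
  let T' : (_root_.Fin b → ZMod m) → (ED (algebraMap F L (algebraMap k F d))).toAffine.Point := fun ψ =>
    (scE (am_ne (L := L) (zp_ne hε ψ)) (tw_eq (tw_d hm hp d ψ))).symm (T ψ)
  have hT' : ∀ ψ, scE (am_ne (L := L) (zp_ne hε ψ)) (tw_eq (tw_d hm hp d ψ)) (T' ψ) = T ψ := fun ψ => AddEquiv.apply_symm_apply _ _
  have hTT' : ∀ ψ, TE l (T' ψ) := fun ψ => (scE_TE (am_ne (L := L) (zp_ne hε ψ)) (tw_eq (tw_d hm hp d ψ)) (T' ψ)).1 (by rw [hT']; exact hT1 ψ)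
  -- the components
  have hcomp : ∀ ψ σ, dN (T' ψ) σ = ∑ q, scE (tw_z (L := L) (zp_ne hε ψ) (tw_d hm hp d ψ) q).1 (tw_z (L := L) (zp_ne hε ψ) (tw_d hm hp d ψ) q).2
      (ac (lift q) c σ) := by
    intro ψ σ
    apply (scE (am_ne (L := L) (zp_ne hε ψ)) (tw_eq (tw_d hm hp d ψ))).injective
    rw [map_sum]
    have h1 := congrFun (tw_dN (L := L) (zp_ne hε ψ) (tw_d hm hp d ψ) (T' ψ)) σ
    rw [hT', ← hT2, Finset.sum_apply] at h1
    refine (h1.symm.trans ?_)
    exact Finset.sum_congr rfl fun q _ => tw_ac (zp_ne hε ψ) (tw_d hm hp d ψ) (lift q) q (hlift q) c σ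
  let U : (ED (algebraMap F L (algebraMap k F d))).toAffine.Point := ∑ ψ, T' ψ
  have hU : ∀ σ, dN U σ = m ^ b • ac (lift 1) c σ := by
    intro σ
    have h1 : (dN U : (L ≃ₐ[F] L) → _) = ∑ ψ, dN (T' ψ) := by
      show dNh L _ (∑ ψ, T' ψ) = ∑ ψ, dNh L _ (T' ψ)
      rw [map_sum]
    rw [h1, Finset.sum_apply, Finset.sum_congr rfl fun ψ _ => hcomp ψ σ, Finset.sum_comm]
    rw [Finset.sum_eq_single (1 : F ≃ₐ[k] F)]
    · have h2 : ∀ ψ : _root_.Fin b → ZMod m, scE (tw_z (L := L) (zp_ne hε ψ) (tw_d hm hp d ψ) 1).1 (tw_z (L := L) (zp_ne hε ψ) (tw_d hm hp d ψ) 1).2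
          (ac (lift 1) c σ) = ac (lift 1) c σ := by
        intro ψ
        have h3 : algebraMap F L ((1 : F ≃ₐ[k] F) (zp ε ψ) / zp ε ψ) = 1 := by
          rw [AlgEquiv.one_apply, div_self (zp_ne hε ψ), map_one]
        rw [scE_congr _ _ one_ne_zero (by rw [one_pow, mul_one]) h3]
        exact scE_one _ _
      rw [Finset.sum_congr rfl fun ψ _ => h2 ψ, Finset.sum_const, Finset.card_univ, Fintype.card_fun, ZMod.card, Fintype.card_fin]
    · intro q _ hq
      have hz : ∀ i, (fun i => algebraMap F L (q (ε i) / ε i)) i ^ m = 1 := fun i => by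
        show (algebraMap F L (q (ε i) / ε i)) ^ m = 1
        rw [← map_pow, gal_act he hp, map_one]
      have hz1 : ∃ i, (fun i => algebraMap F L (q (ε i) / ε i)) i ≠ 1 := by
        obtain ⟨i, hi⟩ := hne q hq
        refine ⟨i, fun h => hi ?_⟩
        have h4 : algebraMap F L (q (ε i) / ε i) = algebraMap F L 1 := by rw [map_one]; exact h
        exact (div_eq_one_iff_eq (hε i)).1 ((algebraMap F L).injective h4)
      have hd0 : algebraMap F L (algebraMap k F d) ≠ 0 := am_ne (am_ne hd)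
      have hkill : l • ac (lift q) c σ = 0 := by
        obtain ⟨W, hW1, hW2⟩ := exists_W (L := L) hd ho hl hnc
        exact hW2.kill _ (hW2.stab _ _ ((hW1 _).2 (hT _)))
      rw [← orth hd0 hl hm hz hz1 _ hkill]
      refine Finset.sum_congr rfl fun ψ _ => scE_congr _ _ _ _ ?_ _
      exact zp_map (algebraMap F L) q ψ
    · intro h
      exact absurd (Finset.mem_univ _) h
  -- the automorphism `lift 1`
  obtain ⟨u, hu⟩ : ∃ u : L ≃ₐ[F] L, (res u : L ≃ₐ[k] L) = lift 1 := by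
    refine ⟨AlgEquiv.ofRingEquiv (f := (lift 1).toRingEquiv) (fun x => hlift 1 x), ?_⟩
    ext x
    rfl
  have hin := CXS.ac_inner hc u
  rw [hu] at hin
  have hac : ac (lift 1) c = c + dN (c u) := by
    rw [← hin]
    abel
  obtain ⟨W, hW1, hW2⟩ := exists_W (L := L) hd ho hl hnc
  have hl1 : 1 < l := by rcases hl with rfl | rfl <;> norm_num
  obtain ⟨a, -, ha⟩ := Nat.exists_mul_mod_eq_one_of_coprime (cop_of hl hm b).symm hl1
  refine ⟨a • (U - m ^ b • c u), (hW1 _).1 ?_, fun σ => ?_⟩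
  · refine W.nsmul_mem (W.sub_mem ?_ (W.nsmul_mem ((hW1 _).2 (hT u)) _)) a
    exact W.sum_mem fun ψ _ => (hW1 _).2 (hTT' ψ)
  · have h1 : ptE (σ : L →+* L) (gal_comm σ (algebraMap k F d)) (a • (U - m ^ b • c u)) - a • (U - m ^ b • c u) =
        dNh L (algebraMap k F d) (a • (U - m ^ b • c u)) σ := rfl
    have h2 : dNh L (algebraMap k F d) U σ = m ^ b • (c σ + dNh L (algebraMap k F d) (c u) σ) := by
      have := hU σ
      rw [hac] at this
      exact this
    rw [h1, map_nsmul, map_sub, map_nsmul]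
    show c σ = a • (dNh L (algebraMap k F d) U σ - m ^ b • dNh L (algebraMap k F d) (c u) σ)
    rw [h2, smul_add, add_sub_cancel_right, smul_smul]
    have h3 : a * m ^ b = l * (m ^ b * a / l) + 1 := by
      rw [mul_comm a]
      have := Nat.div_add_mod (m ^ b * a) l
      rw [ha] at this
      exact this.symm
    rw [h3, add_smul, one_smul, mul_comm l, mul_smul, hW2.kill _ ((hW1 _).2 (hT σ)), smul_zero, zero_add]

end CYS
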