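import Pool.Agent.CYS.D
import Pool.Agent.CYS.E1
import Pool.Agent.CYS.E2
import Pool.Agent.CYS.G
import Pool.Agent.CX.Defs

/-!
# [CYS-Z] finiteness of the group of points and triviality of `Sha[l]` over abelian extensions of exponent `m`, `l * m = 6`
-/

set_option autoImplicit false

open NumberField IsDedekindDomain
open scoped Classical

namespace CYS

open CM27 CF
open JD (ED ptE Coc LocTriv phiE KerE omE jF jK)
open JT (TwoE)
open CUD (gal_comm alg_comm tau_comm am_ne am_o)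

/-- [CYS-Z1] -/
theorem descent_gen {k F : Type} [Field k] [NumberField k] [Field F] [NumberField F] [Algebra k F] {l m b : ℕ} [NeZero m] (hl : l = 2 ∨ l = 3)
    (hm : l * m = 6) {d o : k} (hd : d ≠ 0) (hdi : IsIntegral ℤ d) (ho : o ^ 2 + o + 1 = 0) {e : _root_.Fin b → k} (he : ∀ i, e i ≠ 0)
    {ε : _root_.Fin b → F} (hp : ∀ i, ε i ^ m = algebraMap k F (e i)) (ht : IntermediateField.adjoin k (Set.range ε) = ⊤)
    (hr : Module.finrank k F = m ^ b) (hnc : ∀ x : F, x ^ (5 - l) ≠ algebraMap k F d) :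
    CXS.Fin l (ED (algebraMap k F d)) ↔ ∀ ψ : _root_.Fin b → ZMod m, CXS.Fin l (ED (d * zp e ψ ^ l)) := by
  have hm' : m = 2 ∨ m = 3 := by
    rcases hl with rfl | rfl <;> omega
  have hG : IsGalois k F := gal_of hm' ho he hp ht
  have hε : ∀ i, ε i ≠ 0 := by
    intro i h
    have h1 := hp i
    rw [h, zero_pow (NeZero.ne m)] at h1
    exact he i ((map_eq_zero _).1 h1.symm)
  have hcop : Nat.Coprime l (Module.finrank k F) := by
    rw [hr]
    exact cop_of hl hm b
  constructor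
  · intro h ψ
    apply fin_down (N := F) hcop
    have h1 : (ED (d * zp e ψ ^ l)).baseChange F = ED (algebraMap k F (d * zp e ψ ^ l)) := JD.ED_map _ _
    rw [h1, ← tw_d hm hp d ψ]
    exact (CXS.fin_six l _ _ (zp_ne hε ψ)).2 h
  · intro h
    have hcl : IsAlgClosure k (AlgebraicClosure F) := ⟨inferInstance, Algebra.IsAlgebraic.trans k F (AlgebraicClosure F)⟩
    have hsel : ∀ ψ : _root_.Fin b → ZMod m, Sel l k (AlgebraicClosure F) (d * zp e ψ ^ l) := by
      intro ψ
      have hdψ : d * zp e ψ ^ l ≠ 0 := mul_ne_zero hd (pow_ne_zero _ (zp_ne he ψ))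
      have hncψ : ∀ x : k, x ^ (5 - l) ≠ d * zp e ψ ^ l := by
        intro x hx
        refine tw_root hl (zp_ne hε ψ) (tw_d hm hp d ψ) hnc (algebraMap k F x) ?_
        rw [← map_pow, hx]
      exact sel_congr (sel_of_fin hdψ ho hl hncψ (h ψ))
    exact fin_of_sel (am_ne hd) (hdi.map ((algebraMap k F).toIntAlgHom)) (am_o ho) hl hnc
      (up hl hm hd ho he hp (gal_ne ht) hr hnc hsel)

theorem no_root {F : Type} [Field F] [NumberField F] {d o : F} (hd : d ≠ 0) (ho : o ^ 2 + o + 1 = 0) {l : ℕ} (hl : l = 2 ∨ l = 3)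
    (h : ∀ P : (ED d).toAffine.Point, l • P = 0 → P = 0) (x : F) : x ^ (5 - l) ≠ d := by
  intro hx
  rcases hl with rfl | rfl
  · have hx' : x ^ 3 = d := hx
    have hns : (ED d).toAffine.Nonsingular (-x) 0 := JT.x1_nonsing hd (by rw [← hx']; ring)
    have h1 := h (.some _ _ hns) ((JT.twoE_iff _).1 rfl)
    cases h1
  · have hx' : x ^ 2 = d := hx
    have hns : (ED d).toAffine.Nonsingular 0 x := JT.x1_nonsing hd (by rw [← hx']; ring)
    have h1 := h (.some _ _ hns) (JD.kerE_of_phi hd ho rfl)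
    cases h1

/-- [CYS-Z2] -/
theorem descent {k F : Type} [Field k] [NumberField k] [Field F] [NumberField F] [Algebra KK k] [Algebra KK F] [Algebra k F] [IsScalarTower KK k F]
    {l m b : ℕ} [NeZero m] (hl : l = 2 ∨ l = 3) (hm : l * m = 6) {D : Eis} (hD : D ≠ 0) {e : _root_.Fin b → Eis} {ε : _root_.Fin b → F}
    (hp : ∀ i, ε i ^ m = jF F (e i)) (hn : ∀ i, e i ≠ 0) (ht : IntermediateField.adjoin k (Set.range ε) = ⊤) (hr : Module.finrank k F = m ^ b)
    (hnt : ∀ P : (ED (jF F D)).toAffine.Point, l • P = 0 → P = 0) :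
    CX.Fs l (ED (jF F D)) ↔ ∀ ψ : _root_.Fin b → ZMod m, CX.Fs l (ED (jF k (D * CX.dx e ψ ^ l))) := by
  have hj : ∀ a : Eis, algebraMap k F (jF k a) = jF F a := by
    intro a
    rw [JD.jF_apply, JD.jF_apply, ← IsScalarTower.algebraMap_apply KK k F]
  have ho : (jF k CU.om) ^ 2 + jF k CU.om + 1 = 0 := by
    rw [← map_pow, ← map_one (jF k), ← map_add, ← map_add, show CU.om ^ 2 + CU.om + 1 = 0 by decide, map_zero]
  have hd : jF k D ≠ 0 := fun h => hD (JD.jF_inj k (h.trans (map_zero (jF k)).symm))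
  have hdi : IsIntegral ℤ (jF k D) := JD.int_jF k D
  have h1 := descent_gen (k := k) (F := F) (o := jF k CU.om) hl hm hd hdi ho (e := fun i => jF k (e i))
    (fun i h => hn i (JD.jF_inj k (h.trans (map_zero (jF k)).symm))) (ε := ε) (fun i => by rw [hj]; exact hp i) ht hr
    (by
      rw [hj]
      refine no_root (fun h => hD (JD.jF_inj F (h.trans (map_zero (jF F)).symm))) (o := jF F CU.om) ?_ hl hnt
      rw [← map_pow, ← map_one (jF F), ← map_add, ← map_add, show CU.om ^ 2 + CU.om + 1 = 0 by decide, map_zero])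
  rw [hj] at h1
  refine h1.trans (forall_congr' fun ψ => ?_)
  have h2 : jF k (D * CX.dx e ψ ^ l) = jF k D * zp (fun i => jF k (e i)) ψ ^ l := by
    rw [map_mul, map_pow, CX.dx, map_prod]
    simp only [map_pow]
    rfl
  rw [h2]
  exact Iff.rfl

end CYS
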